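import Pool.Agent.H.MP_5bc4af_co.helper5.Base

/-!
# MP_5bc4af : merging the cycles of a permutation
-/

open Finset Equiv Equiv.Perm

namespace Pool.Agent.H.MP_5bc4af.H5

variable {V : Type*} [Fintype V] [DecidableEq V]

theorem merge_walk (σ : Perm V) {a b : V} (h : ¬ SameCycle σ a b) :
    SameCycle (σ * swap a b) a (σ a) := by
  have hper : a ∈ Function.periodicPts σ := by
    refine Function.mk_mem_periodicPts (orderOf_pos σ) ?_
    rw [Function.IsPeriodicPt, Function.IsFixedPt, ← coe_pow, pow_orderOf_eq_one, coe_one, id]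
  set n := Function.minimalPeriod σ a with hn
  have hn0 : 0 < n := Function.minimalPeriod_pos_of_mem_periodicPts hper
  have key : ∀ j : ℕ, j < n → ((σ * swap a b) ^ j) (σ a) = (σ ^ (j + 1)) a := by
    intro j
    induction j with
    | zero => intro _; simp
    | succ j ih =>
      intro hj
      have ih' := ih (by omega)
      have h1 : (σ ^ (j + 1)) a ≠ a := by
        intro hc
        have h2 : Function.IsPeriodicPt σ (j + 1) a := by
          rw [Function.IsPeriodicPt, Function.IsFixedPt, ← coe_pow]
          exact hc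
        exact Function.not_isPeriodicPt_of_pos_of_lt_minimalPeriod (by omega) hj h2
      have h3 : (σ ^ (j + 1)) a ≠ b := by
        intro hc
        exact h ⟨(j + 1 : ℕ), by rw [zpow_natCast]; exact hc⟩
      rw [pow_succ', mul_apply, ih', mul_apply, swap_apply_of_ne_of_ne h1 h3, ← mul_apply,
        ← pow_succ']
  have h4 : (σ ^ n) a = a := by
    have := Function.isPeriodicPt_minimalPeriod σ a
    rw [Function.IsPeriodicPt, Function.IsFixedPt, ← coe_pow] at this
    exact this
  have h5 := key (n - 1) (by omega)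
  rw [Nat.sub_add_cancel hn0, h4] at h5
  exact SameCycle.symm ⟨((n - 1 : ℕ) : ℤ), by rw [zpow_natCast]; exact h5⟩

theorem merge_same (σ : Perm V) {a b : V} (h : ¬ SameCycle σ a b) {x y : V}
    (hxy : SameCycle σ x y) : SameCycle (σ * swap a b) x y := by
  have h1 : ∀ x, SameCycle (σ * swap a b) x (σ x) := by
    intro x
    by_cases hxa : x = a
    · subst hxa
      exact merge_walk σ h
    · by_cases hxb : x = b
      · subst hxb
        rw [swap_comm]
        exact merge_walk σ fun hc => h hc.symm
      · refine ⟨1, ?_⟩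
        rw [zpow_one, mul_apply, swap_apply_of_ne_of_ne hxa hxb]
  have h2 : ∀ (n : ℕ) (x : V), SameCycle (σ * swap a b) x ((σ ^ n) x) := by
    intro n
    induction n with
    | zero => intro x; simpa using SameCycle.refl _ _
    | succ n ih =>
      intro x
      rw [pow_succ', mul_apply]
      exact (ih x).trans (h1 _)
  obtain ⟨n, hn⟩ := hxy
  rcases Int.eq_nat_or_neg n with ⟨k, rfl | rfl⟩
  · rw [zpow_natCast] at hn
    rw [← hn]
    exact h2 k x
  · rw [zpow_neg, zpow_natCast, Perm.inv_eq_iff_eq] at hn
    rw [hn]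
    exact (h2 k y).symm

theorem merge_ab (σ : Perm V) {a b : V} (h : ¬ SameCycle σ a b) :
    SameCycle (σ * swap a b) a b := by
  have h1 : SameCycle (σ * swap a b) a (σ b) := ⟨1, by simp⟩
  have h2 : SameCycle (σ * swap a b) b (σ b) := by
    rw [swap_comm]
    exact merge_walk σ fun hc => h hc.symm
  exact h1.trans h2.symm

theorem merge_support (σ : Perm V) {a b : V} (h : ¬ SameCycle σ a b) (ha : a ∈ σ.support)
    (hb : b ∈ σ.support) : (σ * swap a b).support = σ.support := by
  ext x
  rw [mem_support, mem_support] at *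
  by_cases hxa : x = a
  · subst hxa
    rw [mul_apply, swap_apply_left]
    refine ⟨fun _ => ha, fun _ hc => h ?_⟩
    exact SameCycle.symm ⟨1, by rw [zpow_one]; exact hc⟩
  · by_cases hxb : x = b
    · subst hxb
      rw [mul_apply, swap_apply_right]
      refine ⟨fun _ => hb, fun _ hc => h ?_⟩
      exact ⟨1, by rw [zpow_one]; exact hc⟩
    · rw [mul_apply, swap_apply_of_ne_of_ne hxa hxb]

/-- A permutation in which every nontrivial cycle has an element outside `S` agrees on `S` with a
cyclic permutation with the same support. -/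
theorem merge (σ : Perm V) (S : Finset V)
    (h : ∀ v, σ v ≠ v → ∃ w, SameCycle σ v w ∧ w ∉ S) :
    ∃ τ : Perm V, (∀ v ∈ S, τ v = σ v) ∧ τ.support = σ.support ∧ (τ = 1 ∨ τ.IsCycle) := by
  classical
  generalize hN : (univ.filter fun p : V × V => ¬ SameCycle σ p.1 p.2).card = N
  induction N using Nat.strong_induction_on generalizing σ with
  | _ N ih =>
    by_cases h1 : σ = 1
    · exact ⟨σ, fun _ _ => rfl, rfl, Or.inl h1⟩
    by_cases h2 : σ.IsCycle
    · exact ⟨σ, fun _ _ => rfl, rfl, Or.inr h2⟩
    obtain ⟨x, hx⟩ : ∃ x, σ x ≠ x := by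
      by_contra hc
      push Not at hc
      exact h1 (Perm.ext fun x => by rw [hc x, one_apply])
    obtain ⟨y, hy, hxy⟩ : ∃ y, σ y ≠ y ∧ ¬ SameCycle σ x y := by
      by_contra hc
      push Not at hc
      exact h2 ⟨x, hx, fun y hy => hc y hy⟩
    obtain ⟨a, hxa, haS⟩ := h x hx
    obtain ⟨b, hyb, hbS⟩ := h y hy
    have hab : ¬ SameCycle σ a b := fun hc => hxy ((hxa.trans hc).trans hyb.symm)
    have haσ : a ∈ σ.support := by
      rw [mem_support]
      intro hc
      rw [hxa.symm.apply_eq_self_iff] at hc
      exact hx hc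
    have hbσ : b ∈ σ.support := by
      rw [mem_support]
      intro hc
      rw [hyb.symm.apply_eq_self_iff] at hc
      exact hy hc
    have hsup := merge_support σ hab haσ hbσ
    have hlt : (univ.filter fun p : V × V => ¬ SameCycle (σ * swap a b) p.1 p.2).card < N := by
      rw [← hN]
      apply Finset.card_lt_card
      rw [Finset.ssubset_iff_of_subset]
      · refine ⟨(a, b), ?_, ?_⟩
        · simpa using hab
        · simpa using merge_ab σ hab
      · intro p hp
        rw [Finset.mem_filter] at hp ⊢
        exact ⟨hp.1, fun hc => hp.2 (merge_same σ hab hc)⟩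
    obtain ⟨τ, h3, h4, h5⟩ := ih _ hlt (σ * swap a b) (by
      intro v hv
      have hv' : σ v ≠ v := by
        rw [← mem_support, ← hsup, mem_support]
        exact hv
      obtain ⟨w, hw, hwS⟩ := h v hv'
      exact ⟨w, merge_same σ hab hw, hwS⟩) rfl
    refine ⟨τ, ?_, h4.trans hsup, h5⟩
    intro v hv
    rw [h3 v hv, mul_apply, swap_apply_of_ne_of_ne]
    · intro hc; rw [hc] at hv; exact haS hv
    · intro hc; rw [hc] at hv; exact hbS hv

theorem merge_disjoint {γ τ : Perm V} (hd : Disjoint γ τ) (hγ : γ.IsCycle) (hτ : τ.IsCycle)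
    {a b : V} (ha : a ∈ γ.support) (hb : b ∈ τ.support) :
    (γ * τ * swap a b).IsCycle ∧ (γ * τ * swap a b).support = γ.support ∪ τ.support := by
  have hγa : γ a ≠ a := mem_support.1 ha
  have hτb : τ b ≠ b := mem_support.1 hb
  have hsup : (γ * τ).support = γ.support ∪ τ.support := hd.support_mul
  have h1 : ∀ y, SameCycle γ a y → SameCycle (γ * τ) a y := by
    rintro y ⟨n, hn⟩
    refine ⟨n, ?_⟩
    have hτa : τ a = a := (hd a).resolve_left hγa
    have h2 : (τ ^ n) a = a := zpow_apply_eq_self_of_apply_eq_self hτa n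
    rw [hd.commute.mul_zpow, mul_apply, h2, hn]
  have h2 : ∀ y, SameCycle τ b y → SameCycle (γ * τ) b y := by
    rintro y ⟨n, hn⟩
    refine ⟨n, ?_⟩
    have hγb : γ b = b := (hd b).resolve_right hτb
    have h3 : (γ ^ n) b = b := zpow_apply_eq_self_of_apply_eq_self hγb n
    rw [hd.commute.eq, (hd.commute.symm).mul_zpow, mul_apply, h3, hn]
  have hmem : ∀ z, z ∈ γ.support → SameCycle (γ * τ) a z := by
    intro z hz
    exact h1 z (hγ.sameCycle hγa (mem_support.1 hz))
  have hmem' : ∀ z, z ∈ τ.support → SameCycle (γ * τ) b z := by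
    intro z hz
    exact h2 z (hτ.sameCycle hτb (mem_support.1 hz))
  have hstay : ∀ n : ℤ, ((γ * τ) ^ n) a ∈ γ.support := by
    intro n
    have hτa : τ a = a := (hd a).resolve_left hγa
    have h2 : (τ ^ n) a = a := zpow_apply_eq_self_of_apply_eq_self hτa n
    rw [hd.commute.mul_zpow, mul_apply, h2, zpow_apply_mem_support]
    exact ha
  have hab : ¬ SameCycle (γ * τ) a b := by
    rintro ⟨n, hn⟩
    have h3 := hstay n
    rw [hn] at h3
    exact (Finset.disjoint_left.1 hd.disjoint_support) h3 hb
  have ha' : a ∈ (γ * τ).support := by rw [hsup]; exact Finset.mem_union_left _ ha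
  have hb' : b ∈ (γ * τ).support := by rw [hsup]; exact Finset.mem_union_right _ hb
  have hs' := merge_support (γ * τ) hab ha' hb'
  refine ⟨⟨a, ?_, ?_⟩, by rw [hs', hsup]⟩
  · rw [← mem_support, hs']
    exact ha'
  · intro y hy
    rw [← mem_support, hs', hsup, Finset.mem_union] at hy
    rcases hy with hy | hy
    · exact merge_same _ hab (hmem y hy)
    · exact (merge_ab _ hab).trans (merge_same _ hab (hmem' y hy))

theorem chi_mul {γ τ : Perm V} (hd : Disjoint γ τ) : chi (γ * τ) = chi γ + chi τ := by
  unfold chi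
  rw [← Finset.sum_add_distrib]
  apply Finset.sum_congr rfl
  intro v _
  rcases hd v with h | h
  · rw [h, ev_self, zero_add, hd.commute.eq, mul_apply, h]
  · rw [h, ev_self, add_zero, mul_apply, h]

theorem chi_mul_swap (ρ : Perm V) {a b : V} (hab : a ≠ b) :
    chi (ρ * swap a b) = chi ρ + (ev a (ρ a) + ev b (ρ b) + (ev a (ρ b) + ev b (ρ a))) := by
  unfold chi
  have hsplit : ∀ g : V → Sym2 V → ZMod 2, ∑ v, g v = (g a + g b) + ∑ v ∈ univ \ {a, b}, g v := by
    intro g
    rw [← Finset.sum_sdiff (Finset.subset_univ ({a, b} : Finset V)), Finset.sum_pair hab, add_comm]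
  rw [hsplit, hsplit (fun v => ev v (ρ v))]
  have h1 : ∑ v ∈ univ \ {a, b}, ev v ((ρ * swap a b) v) = ∑ v ∈ univ \ {a, b}, ev v (ρ v) := by
    apply Finset.sum_congr rfl
    intro v hv
    simp only [Finset.mem_sdiff, Finset.mem_univ, true_and, Finset.mem_insert,
      Finset.mem_singleton, not_or] at hv
    rw [mul_apply, swap_apply_of_ne_of_ne hv.1 hv.2]
  rw [h1, mul_apply, mul_apply, swap_apply_left, swap_apply_right]
  have h2 := two_zero (ev a (ρ a) + ev b (ρ b))
  generalize ∑ v ∈ univ \ {a, b}, ev v (ρ v) = s at *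
  have e : ev a (ρ a) + ev b (ρ b) + s + (ev a (ρ a) + ev b (ρ b) + (ev a (ρ b) + ev b (ρ a)))
      = (ev a (ρ a) + ev b (ρ b) + (ev a (ρ a) + ev b (ρ b))) + (ev a (ρ b) + ev b (ρ a) + s) := by
    abel
  rw [e, h2, zero_add]

/-- The induction statement for `two_cycles`. -/
def TC (σ : Perm V) : Prop := σ = 1 ∨ ∃ (τ κ : Perm V) (b : V), τ.IsCycle ∧ κ.IsCycle ∧
  τ.support = σ.support ∧ κ.support ⊆ σ.support ∧ b ∈ κ.support ∧ κ b = τ b ∧
  chi σ = chi τ + chi κ

theorem TC_cycle (σ : Perm V) (h : σ.IsCycle) : TC σ := by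
  right
  obtain ⟨b, hb, -⟩ := id h
  have hb' : b ≠ σ b := fun hc => hb hc.symm
  refine ⟨σ, swap b (σ b), b, h, isCycle_swap hb', rfl, ?_, ?_, ?_, ?_⟩
  · rw [support_swap hb']
    intro x hx
    simp only [Finset.mem_insert, Finset.mem_singleton] at hx
    rcases hx with rfl | rfl
    · exact mem_support.2 hb
    · rw [apply_mem_support]
      exact mem_support.2 hb
  · rw [support_swap hb']
    simp
  · rw [swap_apply_left]
  · rw [chi_swap hb', add_zero]

theorem TC_all (σ : Perm V) : TC σ := by
  induction σ using cycle_induction_on with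
  | base_one => exact Or.inl rfl
  | base_cycles σ h => exact TC_cycle σ h
  | induction_disjoint γ σ hd hγ hPγ hPσ =>
    rcases hPσ with h1 | ⟨τ, κ, b, hτ, hκ, hτs, hκs, hb, hbb, hchi⟩
    · rw [h1, mul_one]
      exact hPγ
    · right
      obtain ⟨a, ha, -⟩ := id hγ
      have haγ : a ∈ γ.support := mem_support.2 ha
      have hbσ : b ∈ σ.support := hκs hb
      have hbτ : b ∈ τ.support := by rw [hτs]; exact hbσ
      have hds : _root_.Disjoint γ.support σ.support := hd.disjoint_support
      have hdτ : Disjoint γ τ := by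
        rw [disjoint_iff_disjoint_support, hτs]
        exact hds
      have hab : a ≠ b := by
        rintro rfl
        exact Finset.disjoint_left.1 hds haγ hbσ
      have ha' : a ≠ γ a := fun hc => ha hc.symm
      have hsw : (swap a (γ a)).support ⊆ γ.support := by
        rw [support_swap ha']
        intro x hx
        simp only [Finset.mem_insert, Finset.mem_singleton] at hx
        rcases hx with rfl | rfl
        · exact haγ
        · rw [apply_mem_support]
          exact haγ
      have hdκ : Disjoint (swap a (γ a)) κ := by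
        rw [disjoint_iff_disjoint_support]
        exact Finset.disjoint_of_subset_left hsw (Finset.disjoint_of_subset_right hκs hds)
      have hasw : a ∈ (swap a (γ a)).support := by rw [support_swap ha']; simp
      obtain ⟨hτ1, hτ2⟩ := merge_disjoint hdτ hγ hτ haγ hbτ
      obtain ⟨hκ1, hκ2⟩ := merge_disjoint hdκ (isCycle_swap ha') hκ hasw hb
      have hγb : γ b = b := by
        have := Finset.disjoint_right.1 hds hbσ
        exact notMem_support.1 this
      have hτa : τ a = a := by
        have : a ∉ τ.support := by rw [hτs]; exact Finset.disjoint_left.1 hds haγ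
        exact notMem_support.1 this
      have hκa : κ a = a := by
        have : a ∉ κ.support := fun hc => Finset.disjoint_left.1 hds haγ (hκs hc)
        exact notMem_support.1 this
      have hγτ : γ (τ b) = τ b := by
        have h3 : τ b ∈ σ.support := by rw [← hτs, apply_mem_support]; exact hbτ
        exact notMem_support.1 (Finset.disjoint_right.1 hds h3)
      have hsτ : swap a (γ a) (κ b) = κ b := by
        have h3 : κ b ∈ σ.support := hκs (by rw [apply_mem_support]; exact hb)
        have h4 := Finset.disjoint_right.1 hds h3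
        exact notMem_support.1 (fun hc => h4 (hsw hc))
      refine ⟨γ * τ * swap a b, swap a (γ a) * κ * swap a b, b, hτ1, hκ1, ?_, ?_, ?_, ?_, ?_⟩
      · rw [hτ2, hd.support_mul, hτs]
      · rw [hκ2, hd.support_mul]
        exact Finset.union_subset_union hsw hκs
      · rw [hκ2]
        exact Finset.mem_union_right _ hb
      · rw [mul_apply, swap_apply_right, mul_apply, hκa, swap_apply_left, mul_apply,
          swap_apply_right, mul_apply, hτa]
      · rw [chi_mul_swap _ hab, chi_mul_swap _ hab, chi_mul hdτ, chi_mul hdκ, chi_mul hd,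
          chi_swap ha', hchi]
        simp only [mul_apply]
        rw [hτa, hκa, hγτ, hsτ, hbb, swap_apply_left]
        have h2 := two_zero (ev a (γ a) + ev b (τ b) + (ev a (τ b) + ev b (γ a)))
        generalize ev a (γ a) + ev b (τ b) + (ev a (τ b) + ev b (γ a)) = e at *
        have e1 : chi γ + chi τ + e + (0 + chi κ + e) = chi γ + (chi τ + chi κ) + (e + e) := by
          abel
        rw [e1, h2, add_zero]

/-- The vector of a permutation is the sum of at most two cycles. -/
theorem cov_perm (σ : Perm V) : Cov (chi σ) 2 := by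
  rcases TC_all σ with h | ⟨τ, κ, b, hτ, hκ, -, -, -, -, hchi⟩
  · rw [h, chi_one]
    exact Cov.zero.mono (by norm_num)
  · rw [hchi]
    exact (Cov.chi (Or.inr hτ)).add (Cov.chi (Or.inr hκ))

end Pool.Agent.H.MP_5bc4af.H5
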