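import Mathlib

/-!
# MP_5bc4af : cycle odd-covers, basic vectors modulo 2

Edge sets of graphs on `V` are vectors `Sym2 V → ZMod 2`; `ev u v` is the vector of the edge `uv`
(zero for a loop), `chi σ` the sum of `ev v (σ v)`.
-/

open Finset

namespace Pool.Agent.H.MP_5bc4af.H5

variable {V : Type*} [Fintype V] [DecidableEq V]

/-- The vector of the edge `uv` (zero if `u = v`). -/
def ev (u v : V) : Sym2 V → ZMod 2 := if u = v then 0 else Pi.single s(u, v) 1

/-- The vector of a permutation: sum of the edges `v (σ v)`. -/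
def chi (σ : Equiv.Perm V) : Sym2 V → ZMod 2 := ∑ v, ev v (σ v)

/-- `f` is a sum modulo 2 of at most `n` cycles (cyclic permutations of length at least 3). -/
def Cov (f : Sym2 V → ZMod 2) (n : ℕ) : Prop :=
  ∃ l : List (Equiv.Perm V), l.length ≤ n ∧ (∀ σ ∈ l, σ.IsCycle ∧ 3 ≤ σ.support.card) ∧
    f = (l.map chi).sum

/-- Degree modulo 2 at `v`. -/
def bd (f : Sym2 V → ZMod 2) (v : V) : ZMod 2 := ∑ w, f s(v, w)

/-- Degree at `v`. -/
def dg (f : Sym2 V → ZMod 2) (v : V) : ℕ := (univ.filter fun w => f s(v, w) ≠ 0).card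

omit [Fintype V] in
theorem ev_comm (u v : V) : ev u v = ev v u := by
  unfold ev
  by_cases h : u = v
  · simp [h]
  · have h' : ¬ v = u := fun hh => h hh.symm
    simp only [h, h', if_false]
    rw [Sym2.eq_swap]

omit [Fintype V] in
theorem ev_self (u : V) : ev u u = 0 := by simp [ev]

omit [Fintype V] in
theorem ev_diag (u v w : V) : ev u v s(w, w) = 0 := by
  unfold ev
  by_cases h : u = v
  · simp [h]
  · simp only [h, if_false]
    rw [Pi.single_apply, if_neg]
    intro hc
    rw [eq_comm, Sym2.eq_iff] at hc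
    rcases hc with ⟨h1, h2⟩ | ⟨h1, h2⟩ <;> exact h (h1.trans h2.symm)

omit [Fintype V] in
theorem ev_ne {u v x w : V} (h : ev u v s(x, w) ≠ 0) : u ≠ v ∧ ((u = x ∧ v = w) ∨ (u = w ∧ v = x)) := by
  unfold ev at h
  by_cases huv : u = v
  · simp [huv] at h
  · simp only [huv, if_false] at h
    refine ⟨huv, ?_⟩
    rw [Pi.single_apply] at h
    by_cases h2 : s(x, w) = s(u, v)
    · rw [Sym2.eq_iff] at h2
      rcases h2 with ⟨h1, h2⟩ | ⟨h1, h2⟩
      · exact Or.inl ⟨h1.symm, h2.symm⟩
      · exact Or.inr ⟨h2.symm, h1.symm⟩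
    · simp [h2] at h

theorem two_zero (f : Sym2 V → ZMod 2) : f + f = 0 := by
  funext e
  exact CharTwo.add_self_eq_zero (f e)

theorem Cov.zero : Cov (0 : Sym2 V → ZMod 2) 0 := ⟨[], by simp, by simp, by simp⟩

theorem Cov.mono {f : Sym2 V → ZMod 2} {a b : ℕ} (h : Cov f a) (hab : a ≤ b) : Cov f b := by
  obtain ⟨l, h1, h2, h3⟩ := h
  exact ⟨l, h1.trans hab, h2, h3⟩

theorem Cov.add {f g : Sym2 V → ZMod 2} {a b : ℕ} (hf : Cov f a) (hg : Cov g b) :
    Cov (f + g) (a + b) := by
  obtain ⟨l, h1, h2, h3⟩ := hf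
  obtain ⟨l', h1', h2', h3'⟩ := hg
  refine ⟨l ++ l', ?_, ?_, ?_⟩
  · rw [List.length_append]; omega
  · intro σ hσ
    rcases List.mem_append.1 hσ with h | h
    · exact h2 σ h
    · exact h2' σ h
  · rw [List.map_append, List.sum_append, h3, h3']

theorem Cov.sum {ι : Type*} (s : Finset ι) (f : ι → Sym2 V → ZMod 2) (n : ι → ℕ)
    (h : ∀ i ∈ s, Cov (f i) (n i)) : Cov (∑ i ∈ s, f i) (∑ i ∈ s, n i) := by
  classical
  induction s using Finset.induction_on with
  | empty => simpa using Cov.zero
  | insert a s ha ih =>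
    rw [Finset.sum_insert ha, Finset.sum_insert ha]
    exact (h a (Finset.mem_insert_self _ _)).add
      (ih fun i hi => h i (Finset.mem_insert_of_mem hi))

theorem chi_one : chi (1 : Equiv.Perm V) = 0 := by
  unfold chi
  exact Finset.sum_eq_zero fun v _ => by simp [ev]

theorem chi_support (σ : Equiv.Perm V) : chi σ = ∑ v ∈ σ.support, ev v (σ v) := by
  unfold chi
  symm
  apply Finset.sum_subset (Finset.subset_univ _)
  intro v _ hv
  rw [Equiv.Perm.notMem_support] at hv
  rw [hv, ev_self]

theorem chi_swap {a b : V} (hab : a ≠ b) : chi (Equiv.swap a b) = 0 := by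
  rw [chi_support, Equiv.Perm.support_swap hab, Finset.sum_pair hab, Equiv.swap_apply_left,
    Equiv.swap_apply_right, ev_comm b a]
  exact two_zero _

theorem Cov.chi {τ : Equiv.Perm V} (h : τ = 1 ∨ τ.IsCycle) : Cov (chi τ) 1 := by
  rcases h with h | h
  · rw [h, chi_one]
    exact Cov.zero.mono (by norm_num)
  · by_cases h3 : 3 ≤ τ.support.card
    · exact ⟨[τ], by simp, by simpa using ⟨h, h3⟩, by simp⟩
    · have h2 : τ.support.card = 2 := by
        have := h.two_le_card_support
        omega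
      obtain ⟨a, b, hab, hτ⟩ := Equiv.Perm.card_support_eq_two.1 h2
      rw [hτ, chi_swap hab]
      exact Cov.zero.mono (by norm_num)

theorem bd_add (f g : Sym2 V → ZMod 2) (v : V) : bd (f + g) v = bd f v + bd g v := by
  unfold bd
  rw [← Finset.sum_add_distrib]
  rfl

theorem bd_sum {ι : Type*} (s : Finset ι) (f : ι → Sym2 V → ZMod 2) (v : V) :
    bd (∑ i ∈ s, f i) v = ∑ i ∈ s, bd (f i) v := by
  unfold bd
  rw [Finset.sum_comm]
  exact Finset.sum_congr rfl fun w _ => Finset.sum_apply _ _ _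

theorem bd_ev (u w v : V) : bd (ev u w) v = (if u = w then 0 else
    (if u = v then 1 else 0) + (if w = v then 1 else 0)) := by
  unfold bd
  by_cases huw : u = w
  · simp [huw, ev]
  · simp only [huw, if_false]
    by_cases h1 : u = v
    · subst h1
      have h2 : ¬ w = u := fun h => huw h.symm
      simp only [if_true, h2, if_false, add_zero]
      rw [Finset.sum_eq_single w]
      · simp [ev, huw]
      · intro b _ hb
        by_contra hc
        rcases (ev_ne hc).2 with ⟨-, h4⟩ | ⟨-, h4⟩
        · exact hb h4.symm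
        · exact h2 h4
      · simp
    · by_cases h2 : w = v
      · subst h2
        simp only [h1, if_false, if_true, zero_add]
        rw [Finset.sum_eq_single u]
        · simp [ev, huw, Sym2.eq_swap]
        · intro b _ hb
          by_contra hc
          rcases (ev_ne hc).2 with ⟨h4, -⟩ | ⟨h4, -⟩
          · exact h1 h4
          · exact hb h4.symm
        · simp
      · simp only [h1, h2, if_false, add_zero]
        apply Finset.sum_eq_zero
        intro b _
        by_contra hc
        rcases (ev_ne hc).2 with ⟨h4, -⟩ | ⟨-, h4⟩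
        · exact h1 h4
        · exact h2 h4

theorem bd_chi (σ : Equiv.Perm V) (v : V) : bd (chi σ) v = 0 := by
  unfold chi
  rw [bd_sum]
  have h1 : ∀ u : V, bd (ev u (σ u)) v
      = (if u = v then (1 : ZMod 2) else 0) + (if σ u = v then 1 else 0) := by
    intro u
    rw [bd_ev]
    by_cases h : u = σ u
    · rw [if_pos h, ← h]
      exact (CharTwo.add_self_eq_zero _).symm
    · rw [if_neg h]
  rw [Finset.sum_congr rfl fun u _ => h1 u, Finset.sum_add_distrib]
  have h2 : ∑ u : V, (if σ u = v then (1 : ZMod 2) else 0) = 1 := by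
    rw [Finset.sum_eq_single (σ.symm v)]
    · simp
    · intro b _ hb
      rw [if_neg]
      intro hc
      exact hb (by rw [← hc]; simp)
    · simp
  rw [h2]
  simp
  exact CharTwo.add_self_eq_zero _

/-- no loops in a sum of edge vectors -/
theorem sum_ev_diag {ι : Type*} (s : Finset ι) (a b : ι → V) (w : V) :
    (∑ i ∈ s, ev (a i) (b i)) s(w, w) = 0 := by
  rw [Finset.sum_apply]
  exact Finset.sum_eq_zero fun i _ => ev_diag _ _ _

theorem chi_diag (σ : Equiv.Perm V) (w : V) : chi σ s(w, w) = 0 := sum_ev_diag _ _ _ _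

theorem dg_add_le (f g : Sym2 V → ZMod 2) (v : V) : dg (f + g) v ≤ dg f v + dg g v := by
  unfold dg
  rw [← Finset.card_union_add_card_inter]
  refine le_trans (Finset.card_le_card ?_) (Nat.le_add_right _ _)
  intro w hw
  simp only [Finset.mem_filter, Finset.mem_univ, true_and, Finset.mem_union, Pi.add_apply] at hw ⊢
  by_contra hc
  push Not at hc
  rw [hc.1, hc.2, add_zero] at hw
  exact hw rfl

theorem dg_sum_ev_le {ι : Type*} (s : Finset ι) (a b : ι → V) (x : V) :
    dg (∑ i ∈ s, ev (a i) (b i)) x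
      ≤ (s.filter fun i => a i ≠ b i ∧ a i = x).card + (s.filter fun i => a i ≠ b i ∧ b i = x).card := by
  classical
  unfold dg
  have h1 : (univ.filter fun w => (∑ i ∈ s, ev (a i) (b i)) s(x, w) ≠ 0)
      ⊆ (s.filter fun i => a i ≠ b i ∧ a i = x).image b
        ∪ (s.filter fun i => a i ≠ b i ∧ b i = x).image a := by
    intro w hw
    rw [Finset.mem_filter, Finset.sum_apply] at hw
    obtain ⟨i, hi, hne⟩ := Finset.exists_ne_zero_of_sum_ne_zero hw.2
    obtain ⟨h2, h3 | h3⟩ := ev_ne hne
    · exact Finset.mem_union_left _ (Finset.mem_image.2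
        ⟨i, Finset.mem_filter.2 ⟨hi, h2, h3.1⟩, h3.2⟩)
    · exact Finset.mem_union_right _ (Finset.mem_image.2
        ⟨i, Finset.mem_filter.2 ⟨hi, h2, h3.2⟩, h3.1⟩)
  calc _ ≤ _ := Finset.card_le_card h1
    _ ≤ _ := Finset.card_union_le _ _
    _ ≤ _ := add_le_add Finset.card_image_le Finset.card_image_le

end Pool.Agent.H.MP_5bc4af.H5
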