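import Mathlib

/-!
# MP_5bc4af : integer Birkhoff theorem and transport matrices

1. `int_birkhoff`: induction on `r`. For `r = 0` nothing. For `r + 1`: Hall
(`Finset.all_card_le_biUnion_card_iff_exists_injective`) for the sets
`t u = univ.filter fun v => 0 < M u v`: for a set `X` of rows,
`(r+1) * |X| = ∑ u ∈ X, ∑ v ∈ t(X), M u v ≤ ∑ v ∈ t(X), ∑ u, M u v = (r+1) * |t(X)|`.
The injective map is a permutation `π` (finite set) with `0 < M u (π u)`; subtract it from `M` and
apply the induction hypothesis; `Fin.cons` (or `Fin.snoc`).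
2. `transport`: choose an equivalence of `(Σ v, Fin (a v))` with `(Σ v, Fin (b v))` (same number of
elements, `Fintype.equivOfCardEq`), `F u v` = the number of `x` in the first set with `x.1 = u` and
`(φ x).1 = v`.
-/

open Finset

namespace Pool.Agent.H.MP_5bc4af.H5

variable {V : Type*} [Fintype V] [DecidableEq V]

theorem birk_perm (r : ℕ) (M : V → V → ℕ) (hr : ∀ u, ∑ v, M u v = r + 1)
    (hc : ∀ v, ∑ u, M u v = r + 1) : ∃ π : Equiv.Perm V, ∀ u, 0 < M u (π u) := by
  classical
  have hall : ∀ s : Finset V, s.card ≤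
      (s.biUnion fun u => univ.filter fun v => 0 < M u v).card := by
    intro s
    have h1 : ∑ u ∈ s, ∑ v, M u v = s.card * (r + 1) := by
      rw [Finset.sum_congr rfl fun u _ => hr u, Finset.sum_const, smul_eq_mul]
    have h2 : ∀ u ∈ s, ∑ v, M u v
        = ∑ v ∈ (s.biUnion fun u => univ.filter fun v => 0 < M u v), M u v := by
      intro u hu
      symm
      apply Finset.sum_subset (Finset.subset_univ _)
      intro v _ hv
      by_contra hne
      apply hv
      rw [Finset.mem_biUnion]
      exact ⟨u, hu, Finset.mem_filter.2 ⟨Finset.mem_univ _, Nat.pos_of_ne_zero hne⟩⟩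
    have h3 : ∑ u ∈ s, ∑ v, M u v
        ≤ (s.biUnion fun u => univ.filter fun v => 0 < M u v).card * (r + 1) := by
      rw [Finset.sum_congr rfl h2, Finset.sum_comm]
      calc _ ≤ ∑ v ∈ (s.biUnion fun u => univ.filter fun v => 0 < M u v), ∑ u, M u v :=
            Finset.sum_le_sum fun v _ => Finset.sum_le_sum_of_subset (Finset.subset_univ _)
        _ = _ := by
            rw [Finset.sum_congr rfl fun v _ => hc v, Finset.sum_const, smul_eq_mul]
    rw [h1] at h3
    exact Nat.le_of_mul_le_mul_right h3 (Nat.succ_pos r)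
  obtain ⟨f, hf, hft⟩ := (Finset.all_card_le_biUnion_card_iff_exists_injective _).1 hall
  refine ⟨Equiv.ofBijective f (Finite.injective_iff_bijective.1 hf), fun u => ?_⟩
  exact (Finset.mem_filter.1 (hft u)).2

theorem int_birkhoff (r : ℕ) (M : V → V → ℕ) (hr : ∀ u, ∑ v, M u v = r)
    (hc : ∀ v, ∑ u, M u v = r) :
    ∃ σ : Fin r → Equiv.Perm V, ∀ u v, M u v = (univ.filter fun j => σ j u = v).card := by
  induction r generalizing M with
  | zero =>
    refine ⟨Fin.elim0, fun u v => ?_⟩
    have h1 := Finset.sum_eq_zero_iff.1 (hr u) v (Finset.mem_univ v)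
    rw [h1]
    rfl
  | succ r ih =>
    obtain ⟨π, hπ⟩ := birk_perm r M hr hc
    have hM : ∀ u v, M u v = (M u v - (if π u = v then 1 else 0)) + (if π u = v then 1 else 0) := by
      intro u v
      by_cases h : π u = v
      · have := hπ u
        rw [h] at this
        simp only [h, if_true]
        omega
      · simp [h]
    have h1 : ∀ u, ∑ v, (M u v - (if π u = v then 1 else 0)) = r := by
      intro u
      have e := hr u
      rw [Finset.sum_congr rfl fun v _ => hM u v, Finset.sum_add_distrib] at e
      have e2 : ∑ v, (if π u = v then 1 else 0) = 1 := by simp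
      rw [e2] at e
      omega
    have h2 : ∀ v, ∑ u, (M u v - (if π u = v then 1 else 0)) = r := by
      intro v
      have e := hc v
      rw [Finset.sum_congr rfl fun u _ => hM u v, Finset.sum_add_distrib] at e
      have e2 : ∑ u, (if π u = v then 1 else 0) = 1 := by
        rw [Finset.sum_eq_single (π.symm v)]
        · simp
        · intro b _ hb
          rw [if_neg]
          intro h
          exact hb (by rw [← h]; simp)
        · simp
      rw [e2] at e
      omega
    obtain ⟨σ, hσ⟩ := ih _ h1 h2
    refine ⟨Fin.cons π σ, fun u v => ?_⟩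
    rw [hM u v, hσ u v, Finset.card_filter, Finset.card_filter, Fin.sum_univ_succ]
    simp only [Fin.cons_zero, Fin.cons_succ]
    rw [add_comm]

theorem birk_count (a : V → ℕ) (u : V) :
    ∑ x : (Σ v, Fin (a v)), (if x.1 = u then 1 else 0) = a u := by
  rw [Fintype.sum_sigma, Finset.sum_eq_single u]
  · simp
  · intro b _ hb
    simp [hb]
  · simp

theorem transport (a b : V → ℕ) (h : ∑ v, a v = ∑ v, b v) :
    ∃ F : V → V → ℕ, (∀ u, ∑ v, F u v = a u) ∧ (∀ v, ∑ u, F u v = b v) := by
  have hcard : Fintype.card (Σ v, Fin (a v)) = Fintype.card (Σ v, Fin (b v)) := by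
    rw [Fintype.card_sigma, Fintype.card_sigma]
    simpa using h
  let φ : (Σ v, Fin (a v)) ≃ (Σ v, Fin (b v)) := Fintype.equivOfCardEq hcard
  refine ⟨fun u v => ∑ x : (Σ v, Fin (a v)), (if x.1 = u ∧ (φ x).1 = v then 1 else 0),
    fun u => ?_, fun v => ?_⟩
  · rw [Finset.sum_comm]
    rw [← birk_count a u]
    apply Finset.sum_congr rfl
    intro x _
    by_cases hx : x.1 = u
    · simp [hx]
    · simp [hx]
  · rw [Finset.sum_comm]
    rw [← birk_count b v, ← Equiv.sum_comp φ]
    apply Finset.sum_congr rfl
    intro x _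
    by_cases hx : (φ x).1 = v
    · simp [hx]
    · simp [hx]

end Pool.Agent.H.MP_5bc4af.H5
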