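import Pool.Agent.H.MP_5bc4af_co.helper5.LLL

/-!
# MP_5bc4af : equitable colourings of a digraph of bounded degree

1. `chernoff`: for a set `N` of at most `k` vertices, a colour `a` among `M` colours and `s > 0`:
`#{ω : s < |#{u ∈ N : ω u = a} - |N|/M|} ≤ 2 exp(-s^2/(4k)) * M^V`.
Proof: if `s > 2k` the set is empty (the difference is at most `k` in absolute value). Otherwise put
`l = s/(2k) ≤ 1`. For `ε = 1` and `ε = -1`: `∑ ω, exp(ε l (∑ u ∈ N, (1[ω u = a] - 1/M)))
= ∏ u, (∑ b, (if u ∈ N then exp(ε l (1[b = a] - 1/M)) else 1))` (`Finset.prod_univ_sum`,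
`Fintype.piFinset_univ`) `≤ ∏ u, (if u ∈ N then M exp(l^2) else M)` since
`exp y ≤ 1 + y + y^2` for `|y| ≤ 1` (`Real.abs_exp_sub_one_sub_id_le` or similar) and
`∑ b, (1[b = a] - 1/M) = 0`, `∑ b, y_b^2 ≤ M l^2`. Markov: the number of `ω` with
`ε (#.. - |N|/M) > s` is at most `exp(-l s) * M^V * exp(l^2 k)`, and `-l s + l^2 k = -s^2/(4k)`.
2. `coloring`: local lemma with events indexed by `V × ZMod m × Bool` (vertex, colour, out or in),
`N` = the out-neighbours or in-neighbours (at most `k`); `p = 2 exp(-s^2/(4k))`, `d = 2 m k^2`: if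
`u` is a common coordinate of the event with an event `(v', a', out)` then `v'` is an in-neighbour
of `u` (`≤ k` choices), etc.; so for each of the at most `k` points `u` of `N` there are at most
`2 k m` events.
-/

open Finset

namespace Pool.Agent.H.MP_5bc4af.H5

theorem color_exp_le {y : ℝ} (hy : |y| ≤ 1) : Real.exp y ≤ 1 + y + y ^ 2 := by
  have h := (abs_le.1 (Real.abs_exp_sub_one_sub_id_le hy)).2
  linarith

theorem color_diff {V K : Type*} [DecidableEq K] [Fintype K] (N : Finset V) (a : K) (ω : V → K) :
    ((N.filter fun u => ω u = a).card : ℝ) - N.card / Fintype.card K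
      = ∑ u ∈ N, ((if ω u = a then (1 : ℝ) else 0) - 1 / Fintype.card K) := by
  rw [Finset.sum_sub_distrib, Finset.sum_boole, Finset.sum_const, nsmul_eq_mul]
  ring

theorem color_term {K : Type*} [DecidableEq K] [Fintype K] [Nonempty K] (a b : K) :
    |(if b = a then (1 : ℝ) else 0) - 1 / Fintype.card K| ≤ 1 := by
  have h1 : (1 : ℝ) ≤ Fintype.card K := by exact_mod_cast Fintype.card_pos
  have h2 : 0 ≤ 1 / (Fintype.card K : ℝ) := by positivity
  have h3 : 1 / (Fintype.card K : ℝ) ≤ 1 := by
    rw [div_le_one (by linarith)]; exact h1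
  rw [abs_le]
  split_ifs <;> constructor <;> linarith

theorem color_mgf1 {K : Type*} [DecidableEq K] [Fintype K] [Nonempty K] (a : K) (t : ℝ)
    (ht : |t| ≤ 1) :
    ∑ b : K, Real.exp (t * ((if b = a then (1 : ℝ) else 0) - 1 / Fintype.card K))
      ≤ Fintype.card K * Real.exp (t ^ 2) := by
  have h1 : (0 : ℝ) < Fintype.card K := by exact_mod_cast Fintype.card_pos
  have hb : ∀ b : K, Real.exp (t * ((if b = a then (1 : ℝ) else 0) - 1 / Fintype.card K))
      ≤ 1 + t * ((if b = a then (1 : ℝ) else 0) - 1 / Fintype.card K) + t ^ 2 := by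
    intro b
    have h2 := color_term a b
    have h3 : |t * ((if b = a then (1 : ℝ) else 0) - 1 / Fintype.card K)| ≤ 1 := by
      rw [abs_mul]
      calc |t| * |(if b = a then (1 : ℝ) else 0) - 1 / Fintype.card K| ≤ 1 * 1 :=
            mul_le_mul ht h2 (abs_nonneg _) (by norm_num)
        _ = 1 := by norm_num
    have h4 := color_exp_le h3
    have h5 : (t * ((if b = a then (1 : ℝ) else 0) - 1 / Fintype.card K)) ^ 2 ≤ t ^ 2 := by
      rw [mul_pow]
      have h6 : ((if b = a then (1 : ℝ) else 0) - 1 / Fintype.card K) ^ 2 ≤ 1 := by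
        rw [← sq_abs]
        calc |(if b = a then (1 : ℝ) else 0) - 1 / Fintype.card K| ^ 2 ≤ 1 ^ 2 :=
              pow_le_pow_left₀ (abs_nonneg _) h2 2
          _ = 1 := by norm_num
      nlinarith [sq_nonneg t]
    linarith
  calc ∑ b : K, Real.exp (t * ((if b = a then (1 : ℝ) else 0) - 1 / Fintype.card K))
      ≤ ∑ b : K, (1 + t * ((if b = a then (1 : ℝ) else 0) - 1 / Fintype.card K) + t ^ 2) :=
        Finset.sum_le_sum fun b _ => hb b
    _ = Fintype.card K * (1 + t ^ 2) := by
        rw [Finset.sum_add_distrib, Finset.sum_add_distrib, ← Finset.mul_sum,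
          Finset.sum_sub_distrib]
        simp only [Finset.sum_ite_eq', Finset.mem_univ, if_true, Finset.sum_const,
          Finset.card_univ, nsmul_eq_mul, mul_one]
        field_simp
        ring
    _ ≤ Fintype.card K * Real.exp (t ^ 2) := by
        apply mul_le_mul_of_nonneg_left _ h1.le
        have := Real.add_one_le_exp (t ^ 2)
        linarith

theorem color_mgf {V K : Type*} [Fintype V] [DecidableEq V] [Fintype K] [DecidableEq K]
    [Nonempty K] (N : Finset V) (k : ℕ) (hN : N.card ≤ k) (a : K) (t : ℝ) (ht : |t| ≤ 1) :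
    ∑ ω : V → K, Real.exp (t * (((N.filter fun u => ω u = a).card : ℝ)
      - N.card / Fintype.card K)) ≤ Fintype.card (V → K) * Real.exp (t ^ 2 * k) := by
  have h1 : (0 : ℝ) < Fintype.card K := by exact_mod_cast Fintype.card_pos
  have e1 : ∀ ω : V → K, Real.exp (t * (((N.filter fun u => ω u = a).card : ℝ)
      - N.card / Fintype.card K)) = ∏ u, (if u ∈ N then
        Real.exp (t * ((if ω u = a then (1 : ℝ) else 0) - 1 / Fintype.card K)) else 1) := by
    intro ω
    rw [color_diff, Finset.mul_sum, Real.exp_sum, Finset.prod_ite_mem, Finset.univ_inter]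
  rw [Finset.sum_congr rfl fun ω _ => e1 ω]
  have e2 := (Finset.prod_univ_sum (fun _ : V => (univ : Finset K))
    (fun u b => if u ∈ N then
      Real.exp (t * ((if b = a then (1 : ℝ) else 0) - 1 / Fintype.card K)) else 1))
  rw [Fintype.piFinset_univ] at e2
  rw [← e2]
  calc ∏ u : V, ∑ b : K, (if u ∈ N then
      Real.exp (t * ((if b = a then (1 : ℝ) else 0) - 1 / Fintype.card K)) else 1)
      ≤ ∏ u : V, (Fintype.card K * (if u ∈ N then Real.exp (t ^ 2) else 1)) := by
        apply Finset.prod_le_prod
        · intro u _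
          apply Finset.sum_nonneg
          intro b _
          split_ifs <;> positivity
        · intro u _
          by_cases hu : u ∈ N
          · simp only [hu, if_true]
            exact color_mgf1 a t ht
          · simp [hu]
    _ = Fintype.card (V → K) * Real.exp (t ^ 2) ^ N.card := by
        rw [Finset.prod_mul_distrib, Finset.prod_const, Finset.card_univ, Fintype.card_fun,
          Finset.prod_ite_mem, Finset.univ_inter, Finset.prod_const]
        push_cast
        ring
    _ ≤ Fintype.card (V → K) * Real.exp (t ^ 2 * k) := by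
        apply mul_le_mul_of_nonneg_left _ (by positivity)
        rw [← Real.exp_nat_mul]
        apply Real.exp_le_exp.2
        rw [mul_comm]
        apply mul_le_mul_of_nonneg_left _ (sq_nonneg t)
        exact_mod_cast hN

theorem color_markov {Ω : Type*} [Fintype Ω] (X : Ω → ℝ) (l s B : ℝ) (hl : 0 ≤ l)
    (h : ∑ ω, Real.exp (l * X ω) ≤ B) (P : Ω → Prop) [DecidablePred P]
    (hP : ∀ ω, P ω → s ≤ X ω) :
    ((univ.filter P).card : ℝ) ≤ Real.exp (-(l * s)) * B := by
  have h2 : ((univ.filter P).card : ℝ) * Real.exp (l * s) ≤ B := by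
    calc ((univ.filter P).card : ℝ) * Real.exp (l * s)
        = ∑ ω ∈ univ.filter P, Real.exp (l * s) := by
          rw [Finset.sum_const, nsmul_eq_mul]
      _ ≤ ∑ ω ∈ univ.filter P, Real.exp (l * X ω) := by
          apply Finset.sum_le_sum
          intro ω hω
          apply Real.exp_le_exp.2
          exact mul_le_mul_of_nonneg_left (hP ω (Finset.mem_filter.1 hω).2) hl
      _ ≤ ∑ ω, Real.exp (l * X ω) := by
          apply Finset.sum_le_sum_of_subset_of_nonneg (Finset.filter_subset _ _)
          intro ω _ _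
          positivity
      _ ≤ B := h
  have h3 : Real.exp (-(l * s)) * Real.exp (l * s) = 1 := by
    rw [← Real.exp_add]; simp
  calc ((univ.filter P).card : ℝ)
      = Real.exp (-(l * s)) * (((univ.filter P).card : ℝ) * Real.exp (l * s)) := by
        rw [mul_comm ((univ.filter P).card : ℝ), ← mul_assoc, h3, one_mul]
    _ ≤ Real.exp (-(l * s)) * B := mul_le_mul_of_nonneg_left h2 (Real.exp_pos _).le

theorem chernoff {V K : Type*} [Fintype V] [DecidableEq V] [Fintype K] [DecidableEq K]
    [Nonempty K] (N : Finset V) (k : ℕ) (hk : 1 ≤ k) (hN : N.card ≤ k) (a : K) (s : ℝ)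
    (hs : 0 < s) :
    ((univ.filter fun ω : V → K =>
      s < |((N.filter fun u => ω u = a).card : ℝ) - N.card / Fintype.card K|).card : ℝ)
      ≤ 2 * Real.exp (-(s ^ 2 / (4 * k))) * Fintype.card (V → K) := by
  have hk0 : (1 : ℝ) ≤ k := by exact_mod_cast hk
  by_cases hsk : 2 * (k : ℝ) < s
  · have hem : (univ.filter fun ω : V → K =>
        s < |((N.filter fun u => ω u = a).card : ℝ) - N.card / Fintype.card K|) = ∅ := by
      apply Finset.filter_eq_empty_iff.2
      intro ω _
      rw [color_diff]
      have h1 : |∑ u ∈ N, ((if ω u = a then (1 : ℝ) else 0) - 1 / Fintype.card K)| ≤ N.card := by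
        calc |∑ u ∈ N, ((if ω u = a then (1 : ℝ) else 0) - 1 / Fintype.card K)|
            ≤ ∑ u ∈ N, |(if ω u = a then (1 : ℝ) else 0) - 1 / Fintype.card K| :=
              Finset.abs_sum_le_sum_abs _ _
          _ ≤ ∑ u ∈ N, (1 : ℝ) := Finset.sum_le_sum fun u _ => color_term a (ω u)
          _ = N.card := by simp
      have h2 : (N.card : ℝ) ≤ k := by exact_mod_cast hN
      push Not
      linarith
    rw [hem]
    simp only [Finset.card_empty, Nat.cast_zero]
    positivity
  · push Not at hsk
    set l : ℝ := s / (2 * k) with hl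
    have hk1 : (0 : ℝ) < k := by linarith
    have hl0 : 0 ≤ l := by positivity
    have hl1 : l ≤ 1 := by
      rw [hl, div_le_one (by positivity)]; exact hsk
    have hab : |l| ≤ 1 := by rw [abs_of_nonneg hl0]; exact hl1
    have hab' : |-l| ≤ 1 := by rw [abs_neg]; exact hab
    have m1 := color_mgf N k hN a l hab
    have m2 := color_mgf N k hN a (-l) hab'
    set X : (V → K) → ℝ := fun ω => ((N.filter fun u => ω u = a).card : ℝ)
      - N.card / Fintype.card K with hX
    have m2' : ∑ ω : V → K, Real.exp (l * (-(X ω))) ≤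
        Fintype.card (V → K) * Real.exp (l ^ 2 * k) := by
      have : ∀ ω : V → K, l * (-(X ω)) = -l * X ω := fun ω => by ring
      simp only [this]
      rw [neg_sq] at m2
      exact m2
    classical
    have c1 := color_markov X l s _ hl0 m1 (fun ω => s < X ω) (fun ω h => h.le)
    have c2 := color_markov (fun ω => -(X ω)) l s _ hl0 m2' (fun ω => s < -(X ω))
      (fun ω h => h.le)
    have hsub : (univ.filter fun ω : V → K => s < |X ω|) ⊆
        (univ.filter fun ω : V → K => s < X ω) ∪ (univ.filter fun ω : V → K => s < -(X ω)) := by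
      intro ω hω
      have h := (Finset.mem_filter.1 hω).2
      rw [lt_abs] at h
      rw [Finset.mem_union, Finset.mem_filter, Finset.mem_filter]
      rcases h with h | h
      · exact Or.inl ⟨Finset.mem_univ _, h⟩
      · exact Or.inr ⟨Finset.mem_univ _, h⟩
    have c3 : ((univ.filter fun ω : V → K => s < |X ω|).card : ℝ) ≤
        ((univ.filter fun ω : V → K => s < X ω).card : ℝ)
          + ((univ.filter fun ω : V → K => s < -(X ω)).card : ℝ) := by
      exact_mod_cast (Finset.card_le_card hsub).trans (Finset.card_union_le _ _)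
    have hex : Real.exp (-(l * s)) * (Fintype.card (V → K) * Real.exp (l ^ 2 * k))
        = Real.exp (-(s ^ 2 / (4 * k))) * Fintype.card (V → K) := by
      have h5 : -(s ^ 2 / (4 * k)) = -(l * s) + l ^ 2 * k := by
        rw [hl]; field_simp; ring
      rw [h5, Real.exp_add]
      ring
    rw [hex] at c1 c2
    have : ((univ.filter fun ω : V → K => s < |X ω|).card : ℝ) ≤
        2 * Real.exp (-(s ^ 2 / (4 * k))) * Fintype.card (V → K) := by linarith
    convert this using 2

theorem coloring {V : Type*} [Fintype V] [DecidableEq V] (A : Finset (V × V)) (k : ℕ)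
    (hk : 1 ≤ k) (hout : ∀ v, (A.filter fun e => e.1 = v).card ≤ k)
    (hin : ∀ v, (A.filter fun e => e.2 = v).card ≤ k) (m : ℕ) [NeZero m] (s : ℝ) (hs : 0 < s)
    (hexp : 16 * m * (k : ℝ) ^ 2 * Real.exp (-(s ^ 2 / (4 * k))) ≤ 1) :
    ∃ c : V → ZMod m, ∀ v a,
      |((A.filter fun e => e.1 = v ∧ c e.2 = a).card : ℝ)
        - ((A.filter fun e => e.1 = v).card : ℝ) / m| ≤ s ∧
      |((A.filter fun e => e.2 = v ∧ c e.1 = a).card : ℝ)
        - ((A.filter fun e => e.2 = v).card : ℝ) / m| ≤ s := by
  classical
  -- neighbourhoods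
  let No : V → Finset V := fun v => (A.filter fun e => e.1 = v).image Prod.snd
  let Ni : V → Finset V := fun v => (A.filter fun e => e.2 = v).image Prod.fst
  have injo : ∀ v, Set.InjOn (Prod.snd : V × V → V) (A.filter fun e => e.1 = v : Finset (V × V)) := by
    intro v x hx y hy hxy
    have h1 := (Finset.mem_filter.1 (Finset.mem_coe.1 hx)).2
    have h2 := (Finset.mem_filter.1 (Finset.mem_coe.1 hy)).2
    exact Prod.ext (h1.trans h2.symm) hxy
  have inji : ∀ v, Set.InjOn (Prod.fst : V × V → V) (A.filter fun e => e.2 = v : Finset (V × V)) := by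
    intro v x hx y hy hxy
    have h1 := (Finset.mem_filter.1 (Finset.mem_coe.1 hx)).2
    have h2 := (Finset.mem_filter.1 (Finset.mem_coe.1 hy)).2
    exact Prod.ext hxy (h1.trans h2.symm)
  have cardo : ∀ v, (No v).card = (A.filter fun e => e.1 = v).card := fun v =>
    Finset.card_image_of_injOn (injo v)
  have cardi : ∀ v, (Ni v).card = (A.filter fun e => e.2 = v).card := fun v =>
    Finset.card_image_of_injOn (inji v)
  have memo : ∀ v u, u ∈ No v ↔ (v, u) ∈ A := by
    intro v u
    simp only [No, Finset.mem_image, Finset.mem_filter]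
    constructor
    · rintro ⟨⟨x, y⟩, ⟨h1, h2⟩, h3⟩
      simp only at h2 h3
      rw [← h2, ← h3]; exact h1
    · intro h
      exact ⟨(v, u), ⟨h, rfl⟩, rfl⟩
  have memi : ∀ v u, u ∈ Ni v ↔ (u, v) ∈ A := by
    intro v u
    simp only [Ni, Finset.mem_image, Finset.mem_filter]
    constructor
    · rintro ⟨⟨x, y⟩, ⟨h1, h2⟩, h3⟩
      simp only at h2 h3
      rw [← h2, ← h3]; exact h1
    · intro h
      exact ⟨(u, v), ⟨h, rfl⟩, rfl⟩
  have filto : ∀ (v : V) (a : ZMod m) (c : V → ZMod m), ((No v).filter fun u => c u = a).card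
      = (A.filter fun e => e.1 = v ∧ c e.2 = a).card := by
    intro v a c
    have h1 : (No v).filter (fun u => c u = a)
        = (A.filter fun e => e.1 = v ∧ c e.2 = a).image Prod.snd := by
      ext u
      simp only [Finset.mem_filter, memo, Finset.mem_image]
      constructor
      · rintro ⟨h1, h2⟩
        exact ⟨(v, u), ⟨h1, rfl, h2⟩, rfl⟩
      · rintro ⟨⟨x, y⟩, ⟨h1, h2, h3⟩, h4⟩
        simp only at h2 h3 h4
        rw [← h4, ← h2]; exact ⟨h1, h3⟩
    rw [h1, Finset.card_image_of_injOn]
    intro x hx y hy hxy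
    have h1 := (Finset.mem_filter.1 (Finset.mem_coe.1 hx)).2.1
    have h2 := (Finset.mem_filter.1 (Finset.mem_coe.1 hy)).2.1
    exact Prod.ext (h1.trans h2.symm) hxy
  have filti : ∀ (v : V) (a : ZMod m) (c : V → ZMod m), ((Ni v).filter fun u => c u = a).card
      = (A.filter fun e => e.2 = v ∧ c e.1 = a).card := by
    intro v a c
    have h1 : (Ni v).filter (fun u => c u = a)
        = (A.filter fun e => e.2 = v ∧ c e.1 = a).image Prod.fst := by
      ext u
      simp only [Finset.mem_filter, memi, Finset.mem_image]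
      constructor
      · rintro ⟨h1, h2⟩
        exact ⟨(u, v), ⟨h1, rfl, h2⟩, rfl⟩
      · rintro ⟨⟨x, y⟩, ⟨h1, h2, h3⟩, h4⟩
        simp only at h2 h3 h4
        rw [← h4, ← h2]; exact ⟨h1, h3⟩
    rw [h1, Finset.card_image_of_injOn]
    intro x hx y hy hxy
    have h1 := (Finset.mem_filter.1 (Finset.mem_coe.1 hx)).2.1
    have h2 := (Finset.mem_filter.1 (Finset.mem_coe.1 hy)).2.1
    exact Prod.ext hxy (h1.trans h2.symm)
  -- events
  let NN : V × ZMod m × Bool → Finset V := fun i => if i.2.2 then No i.1 else Ni i.1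
  have NNcard : ∀ i, (NN i).card ≤ k := by
    intro i
    simp only [NN]
    split_ifs
    · rw [cardo]; exact hout _
    · rw [cardi]; exact hin _
  let Ev : V × ZMod m × Bool → (V → ZMod m) → Prop := fun i ω =>
    s < |(((NN i).filter fun u => ω u = i.2.1).card : ℝ) - (NN i).card / Fintype.card (ZMod m)|
  have hm1 : 1 ≤ m := Nat.one_le_iff_ne_zero.2 (NeZero.ne m)
  obtain ⟨c, hc⟩ := local_lemma (V := V) (K := ZMod m) Ev NN
    (by
      intro i ω ω' h hA
      simp only [Ev] at hA ⊢
      have : ((NN i).filter fun u => ω' u = i.2.1) = ((NN i).filter fun u => ω u = i.2.1) := by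
        apply Finset.filter_congr
        intro u hu
        rw [h u hu]
      rw [this]; exact hA)
    (2 * Real.exp (-(s ^ 2 / (4 * k)))) (by positivity) (2 * m * k ^ 2)
    (by
      have : 0 < 2 * m * k ^ 2 := by positivity
      exact this)
    (by
      intro i
      have h := chernoff (NN i) k hk (NNcard i) i.2.1 s hs
      simp only [Ev]
      convert h using 3)
    (by
      intro i
      have hsub : (univ.filter fun j => ¬ Disjoint (NN i) (NN j)) ⊆
          (NN i).biUnion fun u => univ.filter fun j => u ∈ NN j := by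
        intro j hj
        have h := (Finset.mem_filter.1 hj).2
        rw [Finset.not_disjoint_iff] at h
        obtain ⟨u, h1, h2⟩ := h
        exact Finset.mem_biUnion.2 ⟨u, h1, Finset.mem_filter.2 ⟨Finset.mem_univ _, h2⟩⟩
      have hone : ∀ u, (univ.filter fun j => u ∈ NN j).card ≤ 2 * m * k := by
        intro u
        have hs2 : (univ.filter fun j => u ∈ NN j) ⊆
            ((Ni u) ×ˢ (univ : Finset (ZMod m)) ×ˢ ({true} : Finset Bool)) ∪
            ((No u) ×ˢ (univ : Finset (ZMod m)) ×ˢ ({false} : Finset Bool)) := by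
          rintro ⟨v, b, o⟩ hj
          have h := (Finset.mem_filter.1 hj).2
          simp only [Finset.mem_union, Finset.mem_product, Finset.mem_univ, true_and,
            Finset.mem_singleton]
          cases o
          · right
            simp only [NN, Bool.false_eq_true, if_false] at h
            exact ⟨(memo _ _).2 ((memi _ _).1 h), rfl⟩
          · left
            simp only [NN, if_true] at h
            exact ⟨(memi _ _).2 ((memo _ _).1 h), rfl⟩
        refine (Finset.card_le_card hs2).trans ((Finset.card_union_le _ _).trans ?_)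
        rw [Finset.card_product, Finset.card_product, Finset.card_product, Finset.card_product,
          Finset.card_univ, ZMod.card, Finset.card_singleton, Finset.card_singleton, cardo, cardi]
        have h1 := hout u
        have h2 := hin u
        nlinarith [Nat.mul_le_mul_right m h1, Nat.mul_le_mul_right m h2]
      refine (Finset.card_le_card hsub).trans (Finset.card_biUnion_le.trans ?_)
      refine (Finset.sum_le_sum fun u _ => hone u).trans ?_
      rw [Finset.sum_const, smul_eq_mul]
      calc (NN i).card * (2 * m * k) ≤ k * (2 * m * k) := Nat.mul_le_mul_right _ (NNcard i)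
        _ = 2 * m * k ^ 2 := by ring)
    (by
      push_cast
      calc 4 * (2 * Real.exp (-(s ^ 2 / (4 * k)))) * (2 * m * (k : ℝ) ^ 2)
          = 16 * m * (k : ℝ) ^ 2 * Real.exp (-(s ^ 2 / (4 * k))) := by ring
        _ ≤ 1 := hexp)
  refine ⟨c, fun v a => ?_⟩
  have h1 := hc (v, a, true)
  have h2 := hc (v, a, false)
  simp only [Ev, NN, if_true, Bool.false_eq_true, if_false, not_lt] at h1 h2
  rw [filto, cardo, ZMod.card] at h1
  rw [filti, cardi, ZMod.card] at h2
  exact ⟨h1, h2⟩

end Pool.Agent.H.MP_5bc4af.H5
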