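import Mathlib

/-!
# MP_5bc4af : Beck–Fiala rounding

Induction on the number of floating variables (`0 < x a < 1`). Stronger statement for the induction:
for a finite family `S i`, each `a` in at most `t` of them (`1 ≤ t`), and `x : A → ℝ` in `[0,1]`
there is `y : A → ℝ` with values in `{0,1}`, `y a = x a` where `x a ∈ {0,1}`, such that for all `i`
`|∑ a ∈ S i, y a - ∑ a ∈ S i, x a| < t`.
Let `Φ` be the set of floating variables; `i` is active if `|S i ∩ Φ| > t`. Double counting:
`(t+1) * #active ≤ ∑ i active, |S i ∩ Φ| ≤ t * |Φ|`, so if `Φ ≠ ∅` then `#active < |Φ|` and the linear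
map `ℝ^Φ → ℝ^active`, `z ↦ (∑ a ∈ S i ∩ Φ, z a)` has a nonzero kernel vector `z`.
Move along `z` until the first variable reaches `0` or `1`.
-/

open Finset

namespace Pool.Agent.H.MP_5bc4af.H5

/-- the floating variables -/
noncomputable def round_fl {A : Type*} [Fintype A] (x : A → ℝ) : Finset A := by
  classical
  exact univ.filter fun a => 0 < x a ∧ x a < 1

theorem round_mem_fl {A : Type*} [Fintype A] (x : A → ℝ) (a : A) :
    a ∈ round_fl x ↔ 0 < x a ∧ x a < 1 := by
  classical
  simp [round_fl]

/-- first time at which a moving point leaves `(0,1)` -/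
theorem round_exit {A : Type*} [Fintype A] (x z : A → ℝ) (hz : ∃ a ∈ round_fl x, z a ≠ 0) :
    ∃ c : ℝ, (∀ a ∈ round_fl x, 0 ≤ x a + c * z a ∧ x a + c * z a ≤ 1) ∧
      ∃ a ∈ round_fl x, (x a + c * z a = 0 ∨ x a + c * z a = 1) := by
  classical
  set F := (round_fl x).filter fun a => z a ≠ 0 with hF
  have hne : F.Nonempty := by
    obtain ⟨a, ha, hza⟩ := hz
    exact ⟨a, by rw [hF, mem_filter]; exact ⟨ha, hza⟩⟩
  let e : A → ℝ := fun a => if 0 < z a then (1 - x a) / z a else x a / (- z a)
  obtain ⟨a0, ha0, hmin⟩ := Finset.exists_min_image F e hne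
  have hpos : ∀ a ∈ F, 0 < e a := by
    intro a ha
    rw [hF, mem_filter, round_mem_fl] at ha
    simp only [e]
    split_ifs with h
    · exact div_pos (by linarith [ha.1.2]) h
    · have : z a < 0 := lt_of_le_of_ne (not_lt.1 h) ha.2
      exact div_pos ha.1.1 (by linarith)
  refine ⟨e a0, ?_, a0, ?_, ?_⟩
  · intro a ha
    have hx := (round_mem_fl x a).1 ha
    have hc := hpos a0 ha0
    by_cases hza : z a = 0
    · rw [hza, mul_zero, add_zero]
      exact ⟨hx.1.le, hx.2.le⟩
    · have haF : a ∈ F := by rw [hF, mem_filter]; exact ⟨ha, hza⟩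
      have hle := hmin a haF
      by_cases h : 0 < z a
      · have e1 : e a = (1 - x a) / z a := by simp only [e]; rw [if_pos h]
        rw [e1, le_div_iff₀ h] at hle
        refine ⟨?_, by linarith⟩
        have : 0 < e a0 * z a := mul_pos hc h
        linarith [hx.1]
      · have h' : z a < 0 := lt_of_le_of_ne (not_lt.1 h) hza
        have e1 : e a = x a / (- z a) := by simp only [e]; rw [if_neg h]
        rw [e1, le_div_iff₀ (by linarith)] at hle
        refine ⟨by linarith, ?_⟩
        have : e a0 * z a < 0 := mul_neg_of_pos_of_neg hc h'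
        linarith [hx.2]
  · rw [hF, mem_filter] at ha0
    exact ha0.1
  · rw [hF, mem_filter] at ha0
    by_cases h : 0 < z a0
    · right
      have e1 : e a0 = (1 - x a0) / z a0 := by simp only [e]; rw [if_pos h]
      rw [e1, div_mul_cancel₀ _ h.ne']
      ring
    · left
      have e1 : e a0 = x a0 / (- z a0) := by simp only [e]; rw [if_neg h]
      have h' : z a0 ≠ 0 := ha0.2
      rw [e1]
      field_simp
      ring

/-- a nonzero direction which does not change the sums over the active sets -/
theorem round_dir {A ι : Type*} [Fintype A] [Fintype ι] [DecidableEq A] [DecidableEq ι]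
    (S : ι → Finset A) (t : ℕ)
    (hS : ∀ a, (univ.filter fun i => a ∈ S i).card ≤ t) (Φ : Finset A) (hΦ : Φ.Nonempty) :
    ∃ z : A → ℝ, (∃ a ∈ Φ, z a ≠ 0) ∧ (∀ a, a ∉ Φ → z a = 0) ∧
      ∀ i, t < (S i ∩ Φ).card → ∑ a ∈ S i, z a = 0 := by
  classical
  set Act := univ.filter fun i => t < (S i ∩ Φ).card with hAct
  have h1 : ∑ i ∈ Act, (S i ∩ Φ).card ≤ t * Φ.card := by
    calc ∑ i ∈ Act, (S i ∩ Φ).card ≤ ∑ i : ι, (S i ∩ Φ).card :=
          Finset.sum_le_sum_of_subset (Finset.subset_univ _)
      _ = ∑ i : ι, ∑ a ∈ Φ, (if a ∈ S i then 1 else 0) := by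
          apply Finset.sum_congr rfl
          intro i _
          rw [Finset.inter_comm, ← Finset.filter_mem_eq_inter, Finset.card_filter]
      _ = ∑ a ∈ Φ, ∑ i : ι, (if a ∈ S i then 1 else 0) := Finset.sum_comm
      _ = ∑ a ∈ Φ, (univ.filter fun i => a ∈ S i).card := by
          apply Finset.sum_congr rfl
          intro a _
          rw [Finset.card_filter]
      _ ≤ ∑ _a ∈ Φ, t := Finset.sum_le_sum fun a _ => hS a
      _ = t * Φ.card := by rw [Finset.sum_const, smul_eq_mul, mul_comm]
  have h2 : (t + 1) * Act.card ≤ ∑ i ∈ Act, (S i ∩ Φ).card := by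
    calc (t + 1) * Act.card = ∑ _i ∈ Act, (t + 1) := by
          rw [Finset.sum_const, smul_eq_mul, mul_comm]
      _ ≤ ∑ i ∈ Act, (S i ∩ Φ).card := by
          apply Finset.sum_le_sum
          intro i hi
          rw [hAct, mem_filter] at hi
          exact hi.2
  have h3 : Act.card < Φ.card := by
    have hpos := Finset.card_pos.2 hΦ
    by_contra hcon
    push Not at hcon
    have : (t + 1) * Φ.card ≤ t * Φ.card := (Nat.mul_le_mul_left _ hcon).trans (h2.trans h1)
    nlinarith
  let L : (Φ → ℝ) →ₗ[ℝ] (Act → ℝ) :=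
    { toFun := fun z i => ∑ a : Φ, if (a : A) ∈ S i then z a else 0
      map_add' := by
        intro z w
        ext i
        simp only [Pi.add_apply]
        rw [← Finset.sum_add_distrib]
        apply Finset.sum_congr rfl
        intro a _
        split_ifs <;> simp
      map_smul' := by
        intro c z
        ext i
        simp only [Pi.smul_apply, smul_eq_mul, RingHom.id_apply]
        rw [Finset.mul_sum]
        apply Finset.sum_congr rfl
        intro a _
        split_ifs <;> simp }
  have h4 : LinearMap.ker L ≠ ⊥ := by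
    apply LinearMap.ker_ne_bot_of_finrank_lt
    simp only [Module.finrank_fintype_fun_eq_card, Fintype.card_coe]
    exact h3
  obtain ⟨z, hz, hz0⟩ := (Submodule.ne_bot_iff _).1 h4
  refine ⟨fun a => if h : a ∈ Φ then z ⟨a, h⟩ else 0, ?_, ?_, ?_⟩
  · by_contra hcon
    push Not at hcon
    apply hz0
    ext ⟨a, ha⟩
    have := hcon a ha
    rw [dif_pos ha] at this
    exact this
  · intro a ha
    exact dif_neg ha
  · intro i hi
    have hi' : i ∈ Act := by rw [hAct, mem_filter]; exact ⟨mem_univ _, hi⟩
    have h5 : L z ⟨i, hi'⟩ = 0 := by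
      rw [LinearMap.mem_ker.1 hz]
      rfl
    have h6 : L z ⟨i, hi'⟩ = ∑ a : Φ, if (a : A) ∈ S i then z a else 0 := rfl
    rw [h6] at h5
    refine Eq.trans ?_ h5
    have h7 : ∑ a : Φ, (if (a : A) ∈ S i then z a else 0)
        = ∑ a : Φ, (fun b : A => if b ∈ S i then (if h : b ∈ Φ then z ⟨b, h⟩ else 0) else 0) a := by
      apply Finset.sum_congr rfl
      rintro ⟨a, ha⟩ _
      simp only
      rw [dif_pos ha]
    rw [h7, Finset.sum_coe_sort Φ
      (fun b : A => if b ∈ S i then (if h : b ∈ Φ then z ⟨b, h⟩ else 0) else 0)]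
    rw [← Finset.sum_filter]
    symm
    apply Finset.sum_subset_zero_on_sdiff
    · intro a ha
      exact (Finset.mem_filter.1 ha).2
    · intro a ha
      rw [Finset.mem_sdiff, Finset.mem_filter, not_and_or] at ha
      rcases ha.2 with h | h
      · rw [dif_neg h]
      · exact absurd ha.1 h
    · intro a _
      rfl

theorem round_main {A ι : Type*} [Fintype A] [Fintype ι] [DecidableEq A] [DecidableEq ι]
    (S : ι → Finset A) (t : ℕ) (ht : 1 ≤ t)
    (hS : ∀ a, (univ.filter fun i => a ∈ S i).card ≤ t) (n : ℕ) :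
    ∀ x : A → ℝ, (∀ a, 0 ≤ x a) → (∀ a, x a ≤ 1) → (round_fl x).card ≤ n →
    ∃ y : A → ℝ, (∀ a, y a = 0 ∨ y a = 1) ∧ (∀ a, a ∉ round_fl x → y a = x a) ∧
      ∀ i, |∑ a ∈ S i, y a - ∑ a ∈ S i, x a| < t := by
  have ht' : (0 : ℝ) < t := by exact_mod_cast ht
  induction n with
  | zero =>
    intro x h0 h1 hc
    have he : round_fl x = ∅ := Finset.card_eq_zero.1 (Nat.le_zero.1 hc)
    refine ⟨x, ?_, fun a _ => rfl, ?_⟩
    · intro a
      have : a ∉ round_fl x := by rw [he]; simp
      rw [round_mem_fl, not_and_or, not_lt, not_lt] at this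
      rcases this with h | h
      · exact Or.inl (le_antisymm h (h0 a))
      · exact Or.inr (le_antisymm (h1 a) h)
    · intro i
      rw [sub_self, abs_zero]
      exact ht'
  | succ n ih =>
    intro x h0 h1 hc
    by_cases hlt : (round_fl x).card ≤ n
    · exact ih x h0 h1 hlt
    have hne : (round_fl x).Nonempty := by
      rw [← Finset.card_pos]; omega
    obtain ⟨z, hz1, hz2, hz3⟩ := round_dir S t hS (round_fl x) hne
    obtain ⟨c, hc1, a1, ha1, hc2⟩ := round_exit x z hz1
    set x' : A → ℝ := fun a => x a + c * z a with hx'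
    have hx'0 : ∀ a, a ∉ round_fl x → x' a = x a := by
      intro a ha
      simp only [hx']
      rw [hz2 a ha, mul_zero, add_zero]
    have hsub : round_fl x' ⊆ (round_fl x).erase a1 := by
      intro a ha
      rw [Finset.mem_erase]
      have hb := (round_mem_fl x' a).1 ha
      constructor
      · rintro rfl
        rcases hc2 with h | h
        · have : x' a = 0 := h
          linarith [hb.1]
        · have : x' a = 1 := h
          linarith [hb.2]
      · by_contra hcon
        rw [hx'0 a hcon] at hb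
        exact hcon ((round_mem_fl x a).2 hb)
    have hcard : (round_fl x').card ≤ n := by
      have h2 := Finset.card_le_card hsub
      rw [Finset.card_erase_of_mem ha1] at h2
      omega
    have hx'b : ∀ a, 0 ≤ x' a ∧ x' a ≤ 1 := by
      intro a
      by_cases ha : a ∈ round_fl x
      · exact hc1 a ha
      · rw [hx'0 a ha]
        exact ⟨h0 a, h1 a⟩
    obtain ⟨y, hy1, hy2, hy3⟩ := ih x' (fun a => (hx'b a).1) (fun a => (hx'b a).2) hcard
    have hyx : ∀ a, a ∉ round_fl x → y a = x a := by
      intro a ha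
      have h3 : a ∉ round_fl x' := fun h => ha (Finset.mem_of_mem_erase (hsub h))
      rw [hy2 a h3, hx'0 a ha]
    refine ⟨y, hy1, hyx, ?_⟩
    intro i
    by_cases hact : t < (S i ∩ round_fl x).card
    · have h4 : ∑ a ∈ S i, x' a = ∑ a ∈ S i, x a := by
        simp only [hx']
        rw [Finset.sum_add_distrib, ← Finset.mul_sum, hz3 i hact, mul_zero, add_zero]
      rw [← h4]
      exact hy3 i
    · push Not at hact
      have h5 : ∑ a ∈ S i, y a - ∑ a ∈ S i, x a = ∑ a ∈ S i ∩ round_fl x, (y a - x a) := by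
        rw [← Finset.sum_sub_distrib]
        symm
        apply Finset.sum_subset Finset.inter_subset_left
        intro a ha ha'
        have : a ∉ round_fl x := fun h => ha' (Finset.mem_inter.2 ⟨ha, h⟩)
        rw [hyx a this, sub_self]
      rw [h5]
      by_cases hemp : (S i ∩ round_fl x) = ∅
      · rw [hemp, Finset.sum_empty, abs_zero]
        exact ht'
      · have h6 : ∀ a ∈ S i ∩ round_fl x, |y a - x a| < 1 := by
          intro a ha
          have hb := (round_mem_fl x a).1 (Finset.mem_inter.1 ha).2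
          rw [abs_lt]
          rcases hy1 a with h | h <;> rw [h] <;> constructor <;> linarith [hb.1, hb.2]
        calc |∑ a ∈ S i ∩ round_fl x, (y a - x a)| ≤ ∑ a ∈ S i ∩ round_fl x, |y a - x a| :=
              Finset.abs_sum_le_sum_abs _ _
          _ < ∑ _a ∈ S i ∩ round_fl x, (1 : ℝ) :=
              Finset.sum_lt_sum_of_nonempty (Finset.nonempty_iff_ne_empty.2 hemp) h6
          _ = ((S i ∩ round_fl x).card : ℝ) := by rw [Finset.sum_const, nsmul_eq_mul, mul_one]
          _ ≤ t := by exact_mod_cast hact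

theorem round_bf {A ι : Type*} [Fintype A] [Fintype ι] [DecidableEq A] [DecidableEq ι]
    (S : ι → Finset A) (t : ℕ) (ht : 1 ≤ t)
    (hS : ∀ a, (univ.filter fun i => a ∈ S i).card ≤ t) (x : A → ℝ)
    (h0 : ∀ a, 0 ≤ x a) (h1 : ∀ a, x a ≤ 1) :
    ∃ T : Finset A, ∀ i, |((S i ∩ T).card : ℝ) - ∑ a ∈ S i, x a| < t := by
  classical
  obtain ⟨y, hy1, -, hy3⟩ := round_main S t ht hS _ x h0 h1 le_rfl
  refine ⟨univ.filter fun a => y a = 1, fun i => ?_⟩
  have h2 : ((S i ∩ univ.filter fun a => y a = 1).card : ℝ) = ∑ a ∈ S i, y a := by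
    have h3 : S i ∩ (univ.filter fun a => y a = 1) = (S i).filter fun a => y a = 1 := by
      ext a
      simp
    rw [h3, Finset.card_filter]
    push_cast
    apply Finset.sum_congr rfl
    intro a _
    rcases hy1 a with h | h <;> simp [h]
  rw [h2]
  exact hy3 i

end Pool.Agent.H.MP_5bc4af.H5
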