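import Pool.Agent.H.MP_5bc4af_co.helper5.Base
import Pool.Agent.H.MP_5bc4af_co.helper5.Round

/-!
# MP_5bc4af : one arc from each fully kept cycle, evenly spread
-/

open Finset Equiv Equiv.Perm

namespace Pool.Agent.H.MP_5bc4af.H5

variable {V : Type*} [Fintype V] [DecidableEq V]

/-- nontrivial cycle contained in `Re j` -/
def Gd {J : Type*} (σ : J → Perm V) (Re : J → Finset V) (p : J × V) : Prop :=
  σ p.1 p.2 ≠ p.2 ∧ ∀ w, SameCycle (σ p.1) p.2 w → w ∈ Re p.1

theorem drop {J : Type*} [Fintype J] [DecidableEq J] (σ : J → Perm V) (Re : J → Finset V)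
    (m : ℕ) (hm : 3 ≤ m)
    (hcyc : ∀ j v, σ j v ≠ v → (∀ w, SameCycle (σ j) v w → w ∈ Re j) →
      m ≤ ((σ j).cycleOf v).support.card) :
    ∃ T : J → Finset V, (∀ j, T j ⊆ Re j) ∧
      (∀ j v, σ j v ≠ v → ∃ w, SameCycle (σ j) v w ∧ w ∉ Re j \ T j) ∧
      (∀ v, ((univ.filter fun j => v ∈ T j).card : ℝ) ≤ 3 * Fintype.card J / m + 3) ∧
      (∀ v, ((univ.filter fun j => (σ j).symm v ∈ T j).card : ℝ)
        ≤ 3 * Fintype.card J / m + 3) := by
  classical
  set A := {p : J × V // Gd σ Re p} with hA
  set len : A → ℕ := fun a => ((σ a.1.1).cycleOf a.1.2).support.card with hlen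
  have hlen1 : ∀ a : A, m ≤ len a := fun a => hcyc a.1.1 a.1.2 a.2.1 a.2.2
  set S : (J × Perm V) ⊕ (V ⊕ V) → Finset A := fun i =>
    match i with
    | Sum.inl q => univ.filter fun a => a.1.1 = q.1 ∧ (σ a.1.1).cycleOf a.1.2 = q.2
    | Sum.inr (Sum.inl u) => univ.filter fun a => a.1.2 = u
    | Sum.inr (Sum.inr u) => univ.filter fun a => σ a.1.1 a.1.2 = u with hS
  have hm0 : (0 : ℝ) < m := by
    have : 0 < m := by omega
    exact_mod_cast this
  have hlr : ∀ a : A, (m : ℝ) ≤ len a := fun a => by exact_mod_cast hlen1 a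
  have hx1 : ∀ a : A, (3 : ℝ) / len a ≤ 3 / m := fun a =>
    div_le_div_of_nonneg_left (by norm_num) hm0 (hlr a)
  have hcnt : ∀ a : A, (univ.filter fun i => a ∈ S i).card ≤ 3 := by
    intro a
    have hsub : (univ.filter fun i => a ∈ S i) ⊆
        {Sum.inl (a.1.1, (σ a.1.1).cycleOf a.1.2), Sum.inr (Sum.inl a.1.2),
          Sum.inr (Sum.inr (σ a.1.1 a.1.2))} := by
      intro i hi
      rw [Finset.mem_filter] at hi
      have hi2 := hi.2
      rcases i with ⟨j, γ⟩ | u | u
      · simp only [hS, Finset.mem_filter, Finset.mem_univ, true_and] at hi2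
        simp only [Finset.mem_insert, Finset.mem_singleton]
        left
        rw [hi2.2, hi2.1]
      · simp only [hS, Finset.mem_filter, Finset.mem_univ, true_and] at hi2
        simp [hi2]
      · simp only [hS, Finset.mem_filter, Finset.mem_univ, true_and] at hi2
        simp [hi2]
    exact (Finset.card_le_card hsub).trans Finset.card_le_three
  obtain ⟨T', hT'⟩ := round_bf S 3 (by norm_num) hcnt (fun a => 3 / (len a : ℝ))
    (fun a => by positivity) (fun a => (hx1 a).trans (by
      rw [div_le_one hm0]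
      exact_mod_cast hm))
  set T : J → Finset V := fun j => univ.filter fun v => ∃ h : Gd σ Re (j, v), (⟨(j, v), h⟩ : A) ∈ T'
    with hT
  have hmemT : ∀ j v, v ∈ T j ↔ ∃ h : Gd σ Re (j, v), (⟨(j, v), h⟩ : A) ∈ T' := by
    intro j v
    rw [hT]
    simp
  refine ⟨T, ?_, ?_, ?_, ?_⟩
  · intro j v hv
    rw [hmemT] at hv
    obtain ⟨h, -⟩ := hv
    exact h.2 v (SameCycle.refl _ _)
  · intro j v hv
    by_cases hall : ∀ w, SameCycle (σ j) v w → w ∈ Re j
    · have hγ : v ∈ ((σ j).cycleOf v).support := by
        rw [mem_support_cycleOf_iff]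
        exact ⟨SameCycle.refl _ _, mem_support.2 hv⟩
      set γ := (σ j).cycleOf v with hγd
      have hgd : ∀ w, SameCycle (σ j) v w → Gd σ Re (j, w) := by
        intro w hw
        refine ⟨?_, fun z hz => hall z (hw.trans hz)⟩
        intro hc
        exact hv ((hw.apply_eq_self_iff).2 hc)
      have hsum : ∑ a ∈ S (Sum.inl (j, γ)), (3 : ℝ) / len a = 3 := by
        have h1 : ∀ a ∈ S (Sum.inl (j, γ)), (3 : ℝ) / len a = 3 / γ.support.card := by
          intro a ha
          simp only [hS, Finset.mem_filter, Finset.mem_univ, true_and] at ha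
          simp only [hlen]
          rw [ha.2]
        rw [Finset.sum_congr rfl h1, Finset.sum_const]
        have h2 : (S (Sum.inl (j, γ))).card = γ.support.card := by
          refine Finset.card_bij (fun a _ => a.1.2) ?_ ?_ ?_
          · intro a ha
            simp only [hS, Finset.mem_filter, Finset.mem_univ, true_and] at ha
            rw [← ha.2, mem_support_cycleOf_iff]
            exact ⟨SameCycle.refl _ _, mem_support.2 a.2.1⟩
          · intro a ha b hb hab
            simp only [hS, Finset.mem_filter, Finset.mem_univ, true_and] at ha hb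
            exact Subtype.ext (Prod.ext (ha.1.trans hb.1.symm) hab)
          · intro w hw
            rw [hγd, mem_support_cycleOf_iff] at hw
            refine ⟨⟨(j, w), hgd w hw.1⟩, ?_, rfl⟩
            simp only [hS, Finset.mem_filter, Finset.mem_univ, true_and]
            rw [hγd]
            exact (hw.1.cycleOf_eq).symm
        have h3 : (0 : ℝ) < γ.support.card := by
          have : 0 < γ.support.card := Finset.card_pos.2 ⟨v, hγ⟩
          exact_mod_cast this
        rw [h2, nsmul_eq_mul]
        field_simp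
      have h4 := hT' (Sum.inl (j, γ))
      rw [hsum] at h4
      have h5 : 0 < (S (Sum.inl (j, γ)) ∩ T').card := by
        by_contra hc
        have hc' : (S (Sum.inl (j, γ)) ∩ T').card = 0 := by omega
        rw [hc'] at h4
        norm_num at h4
      obtain ⟨a, ha⟩ := Finset.card_pos.1 h5
      rw [Finset.mem_inter] at ha
      have ha1 := ha.1
      simp only [hS, Finset.mem_filter, Finset.mem_univ, true_and] at ha1
      refine ⟨a.1.2, ?_, ?_⟩
      · have h6 : a.1.2 ∈ ((σ j).cycleOf v).support := by
          rw [← hγd, ← ha1.2, mem_support_cycleOf_iff]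
          exact ⟨SameCycle.refl _ _, mem_support.2 a.2.1⟩
        rw [mem_support_cycleOf_iff] at h6
        exact h6.1
      · intro hc
        rw [Finset.mem_sdiff] at hc
        apply hc.2
        rw [hmemT]
        have h7 : a = ⟨(j, a.1.2), by rw [← ha1.1]; exact a.2⟩ := by
          apply Subtype.ext
          exact Prod.ext ha1.1 rfl
        exact ⟨by rw [← ha1.1]; exact a.2, by rw [← h7]; exact ha.2⟩
    · push Not at hall
      obtain ⟨w, hw, hwR⟩ := hall
      exact ⟨w, hw, fun hc => hwR (Finset.mem_sdiff.1 hc).1⟩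
  · intro v
    have h1 := hT' (Sum.inr (Sum.inl v))
    have h2 : (univ.filter fun j => v ∈ T j) ⊆
        (S (Sum.inr (Sum.inl v)) ∩ T').image fun a => a.1.1 := by
      intro j hj
      rw [Finset.mem_filter, hmemT] at hj
      obtain ⟨-, h, hh⟩ := hj
      rw [Finset.mem_image]
      refine ⟨⟨(j, v), h⟩, ?_, rfl⟩
      rw [Finset.mem_inter]
      exact ⟨by simp [hS], hh⟩
    have h3 : (univ.filter fun j => v ∈ T j).card ≤ (S (Sum.inr (Sum.inl v)) ∩ T').card :=
      (Finset.card_le_card h2).trans Finset.card_image_le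
    have h4 : ∑ a ∈ S (Sum.inr (Sum.inl v)), (3 : ℝ) / len a ≤ 3 * Fintype.card J / m := by
      have h5 : (S (Sum.inr (Sum.inl v))).card ≤ Fintype.card J := by
        rw [← Finset.card_univ]
        refine Finset.card_le_card_of_injOn (fun a => a.1.1) (fun a _ => mem_coe.2 (mem_univ _)) ?_
        intro a ha b hb hab
        simp only [hS, Finset.coe_filter, Finset.mem_univ, true_and, Set.mem_ofPred_eq] at ha hb
        exact Subtype.ext (Prod.ext hab (ha.trans hb.symm))
      calc ∑ a ∈ S (Sum.inr (Sum.inl v)), (3 : ℝ) / len a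
          ≤ ∑ _a ∈ S (Sum.inr (Sum.inl v)), (3 : ℝ) / m := Finset.sum_le_sum fun a _ => hx1 a
        _ = (S (Sum.inr (Sum.inl v))).card * (3 / m) := by rw [Finset.sum_const, nsmul_eq_mul]
        _ ≤ Fintype.card J * (3 / m) := by
            apply mul_le_mul_of_nonneg_right _ (by positivity)
            exact_mod_cast h5
        _ = 3 * Fintype.card J / m := by ring
    rw [abs_lt] at h1
    have h6 : ((univ.filter fun j => v ∈ T j).card : ℝ) ≤ (S (Sum.inr (Sum.inl v)) ∩ T').card := by
      exact_mod_cast h3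
    have h7 := h1.2
    push_cast at h7
    linarith
  · intro v
    have h1 := hT' (Sum.inr (Sum.inr v))
    have h2 : (univ.filter fun j => (σ j).symm v ∈ T j) ⊆
        (S (Sum.inr (Sum.inr v)) ∩ T').image fun a => a.1.1 := by
      intro j hj
      rw [Finset.mem_filter, hmemT] at hj
      obtain ⟨-, h, hh⟩ := hj
      rw [Finset.mem_image]
      refine ⟨⟨(j, (σ j).symm v), h⟩, ?_, rfl⟩
      rw [Finset.mem_inter]
      exact ⟨by simp [hS], hh⟩
    have h3 : (univ.filter fun j => (σ j).symm v ∈ T j).card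
        ≤ (S (Sum.inr (Sum.inr v)) ∩ T').card :=
      (Finset.card_le_card h2).trans Finset.card_image_le
    have h4 : ∑ a ∈ S (Sum.inr (Sum.inr v)), (3 : ℝ) / len a ≤ 3 * Fintype.card J / m := by
      have h5 : (S (Sum.inr (Sum.inr v))).card ≤ Fintype.card J := by
        rw [← Finset.card_univ]
        refine Finset.card_le_card_of_injOn (fun a => a.1.1) (fun a _ => mem_coe.2 (mem_univ _)) ?_
        intro a ha b hb hab
        simp only [hS, Finset.coe_filter, Finset.mem_univ, true_and, Set.mem_ofPred_eq] at ha hb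
        refine Subtype.ext (Prod.ext hab ?_)
        simp only at hab
        rw [← hb, hab] at ha
        exact (σ b.1.1).injective ha
      calc ∑ a ∈ S (Sum.inr (Sum.inr v)), (3 : ℝ) / len a
          ≤ ∑ _a ∈ S (Sum.inr (Sum.inr v)), (3 : ℝ) / m := Finset.sum_le_sum fun a _ => hx1 a
        _ = (S (Sum.inr (Sum.inr v))).card * (3 / m) := by rw [Finset.sum_const, nsmul_eq_mul]
        _ ≤ Fintype.card J * (3 / m) := by
            apply mul_le_mul_of_nonneg_right _ (by positivity)
            exact_mod_cast h5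
        _ = 3 * Fintype.card J / m := by ring
    rw [abs_lt] at h1
    have h6 : ((univ.filter fun j => (σ j).symm v ∈ T j).card : ℝ)
        ≤ (S (Sum.inr (Sum.inr v)) ∩ T').card := by
      exact_mod_cast h3
    have h7 := h1.2
    push_cast at h7
    linarith

end Pool.Agent.H.MP_5bc4af.H5
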