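import Pool.Agent.H.MP_5bc4af_co.helper5.Main2

/-!
# MP_5bc4af : choice of the parameters, translation to graphs
-/

open Finset Equiv Equiv.Perm Filter Topology

namespace Pool.Agent.H.MP_5bc4af.H5

theorem exp_small : ∃ Y : ℝ, 2 ≤ Y ∧ ∀ y : ℝ, Y ≤ y → 64 * y ^ 60 * Real.exp (-(y ^ 2 / 4)) ≤ 1 := by
  have h1 := Real.tendsto_pow_mul_exp_neg_atTop_nhds_zero 30
  have h2 : ∀ᶠ z : ℝ in atTop, z ^ 30 * Real.exp (-z) < 1 / (64 * 4 ^ 30) :=
    h1.eventually_lt_const (by positivity)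
  obtain ⟨Z, hZ⟩ := eventually_atTop.1 h2
  refine ⟨max 2 (4 * Z), le_max_left _ _, fun y hy => ?_⟩
  have hy2 : 2 ≤ y := (le_max_left _ _).trans hy
  have hyZ : 4 * Z ≤ y := (le_max_right _ _).trans hy
  have h3 : Z ≤ y ^ 2 / 4 := by nlinarith
  have h4 := hZ _ h3
  have h5 : 64 * y ^ 60 * Real.exp (-(y ^ 2 / 4))
      = (64 * 4 ^ 30) * ((y ^ 2 / 4) ^ 30 * Real.exp (-(y ^ 2 / 4))) := by ring
  rw [h5]
  rw [lt_div_iff₀ (by positivity)] at h4
  linarith

/-- An even graph of maximum degree at most `2k` is a sum of `k + O(k^{4/5})` cycles. -/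
theorem cov_asym : ∃ C : ℝ, 0 ≤ C ∧ ∀ (V : Type*) [Fintype V] [DecidableEq V]
    (f : Sym2 V → ZMod 2), (∀ v, f s(v, v) = 0) → (∀ v, bd f v = 0) → ∀ k : ℕ,
    (∀ v, dg f v ≤ 2 * k) → ∃ n : ℕ, Cov f n ∧ (n : ℝ) ≤ k + C * (k : ℝ) ^ (4 / 5 : ℝ) := by
  obtain ⟨Y, hY2, hY⟩ := exp_small
  have hY0 : 0 < Y := by linarith
  refine ⟨59 + Y ^ 20, by positivity, ?_⟩
  intro V _ _ f hd hb k hk
  rcases Nat.eq_zero_or_pos k with hk0 | hk0
  · subst hk0
    refine ⟨2 * 0, cov_rem f hd hb 0 hk, ?_⟩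
    have h1 : (0 : ℝ) ≤ ((0 : ℕ) : ℝ) ^ (4 / 5 : ℝ) := by positivity
    have h2 : 0 ≤ (59 + Y ^ 20) * ((0 : ℕ) : ℝ) ^ (4 / 5 : ℝ) := by positivity
    simp only [Nat.mul_zero, Nat.cast_zero, zero_add] at h2 ⊢
    exact h2
  have hkr : (1 : ℝ) ≤ k := by exact_mod_cast hk0
  have hkpos : (0 : ℝ) < k := by linarith
  have hpow1 : (1 : ℝ) ≤ (k : ℝ) ^ (4 / 5 : ℝ) := Real.one_le_rpow hkr (by norm_num)
  set y : ℝ := (k : ℝ) ^ (1 / 20 : ℝ) with hy
  have hy1 : 1 ≤ y := Real.one_le_rpow hkr (by norm_num)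
  have hyk : y ^ 20 = k := by
    rw [hy, ← Real.rpow_natCast, ← Real.rpow_mul hkpos.le]
    norm_num
  have hy16 : y ^ 16 = (k : ℝ) ^ (4 / 5 : ℝ) := by
    rw [hy, ← Real.rpow_natCast, ← Real.rpow_mul hkpos.le]
    norm_num
  rcases lt_or_ge y Y with hlt | hge
  · -- small degree
    refine ⟨2 * k, cov_rem f hd hb k hk, ?_⟩
    have h1 : (k : ℝ) ≤ Y ^ 20 := by
      rw [← hyk]
      exact pow_le_pow_left₀ (by linarith) hlt.le 20
    have h2 : Y ^ 20 ≤ (59 + Y ^ 20) * (k : ℝ) ^ (4 / 5 : ℝ) := by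
      have h3 : 0 ≤ Y ^ 20 := by positivity
      nlinarith
    push_cast
    linarith
  · have hy2 : 2 ≤ y := hY2.trans hge
    have hy5 : (32 : ℝ) ≤ y ^ 5 := by
      have := pow_le_pow_left₀ (by norm_num) hy2 5
      norm_num at this
      exact this
    set n0 : ℕ := ⌈y ^ 5⌉₊ with hn0
    have hn1 : y ^ 5 ≤ n0 := Nat.le_ceil _
    have hn2 : (n0 : ℝ) < y ^ 5 + 1 := Nat.ceil_lt_add_one (by positivity)
    have hn3 : 32 ≤ n0 := by
      have : (32 : ℝ) ≤ n0 := hy5.trans hn1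
      exact_mod_cast this
    obtain ⟨m, hmp, hm1, hm2⟩ := Nat.exists_prime_lt_and_le_two_mul n0 (by omega)
    have : Fact m.Prime := ⟨hmp⟩
    have hm3 : 3 ≤ m := by omega
    have hmr1 : y ^ 5 ≤ m := by
      have : (n0 : ℝ) ≤ m := by exact_mod_cast hm1.le
      linarith
    have hmr2 : (m : ℝ) ≤ 4 * y ^ 5 := by
      have : (m : ℝ) ≤ 2 * n0 := by exact_mod_cast hm2
      linarith
    have hm0 : (0 : ℝ) < m := by linarith
    have hy0 : 0 < y := by linarith
    obtain ⟨n, hn, hnb⟩ := main_ineq f hd hb k hk0 hk m hm3 (y ^ 11) (by positivity) (by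
      have e1 : (y ^ 11) ^ 2 / (4 * (k : ℝ)) = y ^ 2 / 4 := by
        rw [← hyk]
        field_simp
      rw [e1]
      have e2 : (m : ℝ) ≤ 4 * y ^ 20 := by
        have : y ^ 5 ≤ y ^ 20 := pow_le_pow_right₀ hy1 (by norm_num)
        linarith
      have e3 : 16 * (m : ℝ) * (k : ℝ) ^ 2 ≤ 64 * y ^ 60 := by
        rw [← hyk]
        have : 0 ≤ (y ^ 20) ^ 2 := by positivity
        calc 16 * (m : ℝ) * (y ^ 20) ^ 2 ≤ 16 * (4 * y ^ 20) * (y ^ 20) ^ 2 := by
              apply mul_le_mul_of_nonneg_right _ this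
              linarith
          _ = 64 * y ^ 60 := by ring
      calc 16 * (m : ℝ) * (k : ℝ) ^ 2 * Real.exp (-(y ^ 2 / 4))
          ≤ 64 * y ^ 60 * Real.exp (-(y ^ 2 / 4)) :=
            mul_le_mul_of_nonneg_right e3 (Real.exp_pos _).le
        _ ≤ 1 := hY y hge)
    refine ⟨n, hn, hnb.trans ?_⟩
    rw [← hy16]
    have f1 : 13 * (k : ℝ) / m ≤ 13 * y ^ 16 := by
      rw [div_le_iff₀ hm0, ← hyk]
      have e1 : 13 * y ^ 20 ≤ 13 * y ^ 16 * y ^ 5 := by
        have : y ^ 20 ≤ y ^ 21 := pow_le_pow_right₀ hy1 (by norm_num)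
        have e2 : 13 * y ^ 16 * y ^ 5 = 13 * y ^ 21 := by ring
        rw [e2]
        linarith
      have e2 : 13 * y ^ 16 * y ^ 5 ≤ 13 * y ^ 16 * m :=
        mul_le_mul_of_nonneg_left hmr1 (by positivity)
      linarith
    have f2 : 8 * (m : ℝ) * y ^ 11 ≤ 32 * y ^ 16 := by
      calc 8 * (m : ℝ) * y ^ 11 ≤ 8 * (4 * y ^ 5) * y ^ 11 := by
            apply mul_le_mul_of_nonneg_right _ (by positivity)
            linarith
        _ = 32 * y ^ 16 := by ring
    have f3 : (14 : ℝ) ≤ 14 * y ^ 16 := by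
      have : (1 : ℝ) ≤ y ^ 16 := one_le_pow₀ hy1
      linarith
    have f4 : 0 ≤ Y ^ 20 * y ^ 16 := by positivity
    linarith

variable {V : Type*} [Fintype V] [DecidableEq V]

/-- the edge set of a cyclic permutation -/
def edges (σ : Perm V) : Finset (Sym2 V) := σ.support.image fun v => s(v, σ v)

theorem chi_cycle {σ : Perm V} (h : σ.IsCycle) (h3 : 3 ≤ σ.support.card) (e : Sym2 V) :
    chi σ e = if e ∈ edges σ then 1 else 0 := by
  have hsq : ∀ v ∈ σ.support, σ (σ v) ≠ v := by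
    intro v hv hc
    have h1 : σ ^ 2 = 1 := by
      rw [h.pow_eq_one_iff]
      exact ⟨v, mem_support.1 hv, by rw [pow_two, mul_apply]; exact hc⟩
    have h2 : orderOf σ ∣ 2 := orderOf_dvd_of_pow_eq_one h1
    rw [h.orderOf] at h2
    have := Nat.le_of_dvd (by norm_num) h2
    omega
  rw [chi_support, Finset.sum_apply]
  by_cases he : e ∈ edges σ
  · rw [if_pos he]
    rw [edges, Finset.mem_image] at he
    obtain ⟨v, hv, rfl⟩ := he
    rw [Finset.sum_eq_single v]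
    · rw [ev_apply, if_pos]
      exact ⟨fun hc => mem_support.1 hv hc.symm, rfl⟩
    · intro w hw hne
      rw [ev_apply, if_neg]
      rintro ⟨-, h4⟩
      rw [Sym2.eq_iff] at h4
      rcases h4 with ⟨h5, -⟩ | ⟨h5, h6⟩
      · exact hne h5.symm
      · apply hsq w hw
        rw [← h5, h6]
    · intro hc
      exact absurd hv hc
  · rw [if_neg he]
    apply Finset.sum_eq_zero
    intro v hv
    rw [ev_apply, if_neg]
    rintro ⟨-, h4⟩
    apply he
    rw [edges, Finset.mem_image]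
    exact ⟨v, hv, h4.symm⟩

/-- a cyclic permutation gives a cycle in the usual sense -/
theorem exists_cyc {σ : Perm V} (h : σ.IsCycle) (h3 : 3 ≤ σ.support.card) :
    ∃ (n : ℕ) (v : Fin (n + 3) → V), Function.Injective v ∧
      ∀ e, e ∈ edges σ ↔ ∃ i, e = s(v i, v (i + 1)) := by
  obtain ⟨x, hx, hall⟩ := id h
  obtain ⟨n, hn⟩ := Nat.exists_eq_add_of_le' h3
  have hord : orderOf σ = n + 3 := by rw [h.orderOf, hn]
  have hpow : ∀ a b : ℕ, (σ ^ a) x = (σ ^ b) x → a % (n + 3) = b % (n + 3) := by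
    intro a b hab
    have h1 : σ ^ a = σ ^ b := by
      rcases le_total a b with hle | hle
      · have h2 : (σ ^ (b - a)) x = x := by
          have e1 : (σ ^ b) x = (σ ^ a) ((σ ^ (b - a)) x) := by
            rw [← mul_apply, ← pow_add, Nat.add_sub_cancel' hle]
          rw [e1] at hab
          exact ((σ ^ a).injective hab).symm
        have h4 : σ ^ (b - a) = 1 := h.pow_eq_one_iff.2 ⟨x, hx, h2⟩
        rw [← Nat.add_sub_cancel' hle, pow_add, h4, mul_one]
      · have h2 : (σ ^ (a - b)) x = x := by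
          have e1 : (σ ^ a) x = (σ ^ b) ((σ ^ (a - b)) x) := by
            rw [← mul_apply, ← pow_add, Nat.add_sub_cancel' hle]
          rw [e1] at hab
          exact (σ ^ b).injective hab
        have h4 : σ ^ (a - b) = 1 := h.pow_eq_one_iff.2 ⟨x, hx, h2⟩
        rw [← Nat.add_sub_cancel' hle, pow_add, h4, mul_one]
    rw [← hord]
    exact (pow_inj_mod).1 h1
  have hmod : ∀ a : ℕ, (σ ^ (a % (n + 3))) x = (σ ^ a) x := by
    intro a
    rw [← hord, pow_mod_orderOf]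
  have hnext : ∀ i : Fin (n + 3), (σ ^ ((i + 1 : Fin (n + 3)) : ℕ)) x = σ ((σ ^ (i : ℕ)) x) := by
    intro i
    rw [Fin.val_add, hmod]
    have h1 : ((1 : Fin (n + 3)) : ℕ) = 1 := rfl
    rw [h1, pow_succ', mul_apply]
  refine ⟨n, fun i => (σ ^ (i : ℕ)) x, ?_, ?_⟩
  · intro i j hij
    have h1 := hpow _ _ hij
    rw [Nat.mod_eq_of_lt i.2, Nat.mod_eq_of_lt j.2] at h1
    exact Fin.ext h1
  · intro e
    rw [edges, Finset.mem_image]
    constructor
    · rintro ⟨v, hv, rfl⟩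
      obtain ⟨k, hk⟩ := (hall (mem_support.1 hv)).exists_nat_pow_eq
      refine ⟨⟨k % (n + 3), Nat.mod_lt _ (by omega)⟩, ?_⟩
      beta_reduce
      rw [hnext]
      simp only
      rw [hmod, hk]
    · rintro ⟨i, rfl⟩
      refine ⟨(σ ^ (i : ℕ)) x, ?_, ?_⟩
      · rw [pow_apply_mem_support]
        exact mem_support.2 hx
      · beta_reduce
        rw [hnext]

/-- parity form of `Cov` -/
theorem cov_parity {f : Sym2 V → ZMod 2} {n : ℕ} (h : Cov f n) :
    ∃ L : List (Finset (Sym2 V)), L.length ≤ n ∧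
      (∀ D ∈ L, ∃ (n : ℕ) (v : Fin (n + 3) → V), Function.Injective v ∧
        ∀ e, e ∈ D ↔ ∃ i, e = s(v i, v (i + 1))) ∧
      ∀ e, f e ≠ 0 ↔ Odd (L.countP fun D => decide (e ∈ D)) := by
  obtain ⟨l, h1, h2, h3⟩ := h
  refine ⟨l.map edges, by rw [List.length_map]; exact h1, ?_, ?_⟩
  · intro D hD
    obtain ⟨σ, hσ, rfl⟩ := List.mem_map.1 hD
    exact exists_cyc (h2 σ hσ).1 (h2 σ hσ).2
  · intro e
    have key : ∀ l : List (Perm V), (∀ σ ∈ l, σ.IsCycle ∧ 3 ≤ σ.support.card) →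
        ((l.map chi).sum) e = (((l.map edges).countP fun D => decide (e ∈ D) : ℕ) : ZMod 2) := by
      intro l
      induction l with
      | nil => intro _; simp
      | cons σ l ih =>
        intro hl
        have hσ := hl σ List.mem_cons_self
        rw [List.map_cons, List.sum_cons, List.map_cons, List.countP_cons, Pi.add_apply,
          ih fun τ hτ => hl τ (List.mem_cons_of_mem _ hτ), chi_cycle hσ.1 hσ.2 e]
        by_cases he : e ∈ edges σ
        · simp only [he, if_true, decide_true]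
          push_cast
          ring
        · simp [he]
    rw [h3, key l h2, Ne, ZMod.natCast_eq_zero_iff_even, Nat.not_even_iff_odd]

end Pool.Agent.H.MP_5bc4af.H5
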