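import Mathlib

/-!
# MP_5bc4af : the symmetric local lemma on a finite product space

`Ω = V → K` with the counting measure. `A i` depends only on the coordinates in `N i`.
1. `indep`: if `P` depends only on coordinates in `N` and `Q` only on coordinates outside `N` then
`#(P ∧ Q) * #Ω = #P * #Q`: bijection of `Ω × Ω` exchanging the coordinates in `N`
(`(ω, ω') ↦ (ω on N and ω' off N, ω' on N and ω off N)`) maps `{(ω,ω') : P ω ∧ Q ω}` onto
`{(ω, ω') : P ω ∧ Q ω'}` (with roles fixed suitably).
2. Claim, by strong induction on `|T|`, `T : Finset I`: for all `i`,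
`#(A i ∧ ∀ j ∈ T, ¬ A j) ≤ 2 p * #(∀ j ∈ T, ¬ A j)`. For `i ∈ T` the left side is `0`. Otherwise split
`T = T1 ∪ T2`, `T1` = those `j ∈ T` with `N j` meeting `N i`. If `T1 = ∅`: independence gives
`#(A i ∧ good T) = #A i * #good T / #Ω ≤ p #good T`. If `T1 ≠ ∅`:
`#(A i ∧ good T) ≤ #(A i ∧ good T2) ≤ p #good T2` and
`#good T ≥ #good T2 - ∑ j ∈ T1, #(A j ∧ good T2) ≥ (1 - 2 p d) #good T2 ≥ (1/2) #good T2`
(induction hypothesis for `T2`, `|T2| < |T|`, and `|T1| ≤ d`).
If `N i = ∅` it is still fine (`T1 = ∅`).
3. Then by induction on `T`: `#good T > 0`: `#good (insert i T) = #good T - #(A i ∧ good T)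
≥ (1 - 2p) #good T`, and `1 - 2p > 0` because `4 p d ≤ 1`; when `d = 0` all `N i` are disjoint from all
`N j` including itself so `N i = ∅` and `A i` is constant; to avoid this case there is the
hypothesis `1 ≤ d`.
-/

open Finset

namespace Pool.Agent.H.MP_5bc4af.H5

/-- `ω` on `N`, `ω'` off `N`. -/
def lll_sw {V K : Type*} [DecidableEq V] (N : Finset V) (ω ω' : V → K) : V → K :=
  fun v => if v ∈ N then ω v else ω' v

theorem lll_sw_on {V K : Type*} [DecidableEq V] (N : Finset V) (ω ω' : V → K) (v : V)
    (hv : v ∈ N) : lll_sw N ω ω' v = ω v := by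
  simp [lll_sw, hv]

theorem lll_sw_off {V K : Type*} [DecidableEq V] (N : Finset V) (ω ω' : V → K) (v : V)
    (hv : v ∉ N) : lll_sw N ω ω' v = ω' v := by
  simp [lll_sw, hv]

theorem lll_indep {V K : Type*} [Fintype V] [DecidableEq V] [Fintype K] [DecidableEq K]
    (N : Finset V) (P Q : (V → K) → Prop) [DecidablePred P] [DecidablePred Q]
    (hP : ∀ ω ω' : V → K, (∀ v ∈ N, ω v = ω' v) → P ω → P ω')
    (hQ : ∀ ω ω' : V → K, (∀ v, v ∉ N → ω v = ω' v) → Q ω → Q ω') :
    (univ.filter fun ω => P ω ∧ Q ω).card * Fintype.card (V → K) =
      (univ.filter P).card * (univ.filter Q).card := by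
  rw [← Finset.card_univ (α := V → K), ← Finset.card_product, ← Finset.card_product]
  refine Finset.card_nbij' (fun z => (lll_sw N z.1 z.2, lll_sw N z.2 z.1))
    (fun z => (lll_sw N z.1 z.2, lll_sw N z.2 z.1)) ?_ ?_ ?_ ?_
  · intro z hz
    simp only [Finset.coe_product, Finset.coe_filter, Finset.mem_univ, true_and, Set.mem_prod,
      Set.mem_setOf_eq, Finset.coe_univ, Set.mem_univ, and_true] at hz ⊢
    refine ⟨hP z.1 _ (fun v hv => (lll_sw_on N z.1 z.2 v hv).symm) hz.1,
      hQ z.1 _ (fun v hv => (lll_sw_off N z.2 z.1 v hv).symm) hz.2⟩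
  · intro z hz
    simp only [Finset.coe_product, Finset.coe_filter, Finset.mem_univ, true_and, Set.mem_prod,
      Set.mem_setOf_eq, Finset.coe_univ, Set.mem_univ, and_true] at hz ⊢
    refine ⟨hP z.1 _ (fun v hv => (lll_sw_on N z.1 z.2 v hv).symm) hz.1,
      hQ z.2 _ (fun v hv => (lll_sw_off N z.1 z.2 v hv).symm) hz.2⟩
  · intro z _
    ext v
    · by_cases hv : v ∈ N <;> simp [lll_sw, hv]
    · by_cases hv : v ∈ N <;> simp [lll_sw, hv]
  · intro z _
    ext v
    · by_cases hv : v ∈ N <;> simp [lll_sw, hv]
    · by_cases hv : v ∈ N <;> simp [lll_sw, hv]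

theorem local_lemma {V K I : Type*} [Fintype V] [DecidableEq V] [Fintype K] [Nonempty K]
    [DecidableEq K] [Fintype I] [DecidableEq I]
    (A : I → (V → K) → Prop) [∀ i, DecidablePred (A i)] (N : I → Finset V)
    (hN : ∀ i (ω ω' : V → K), (∀ v ∈ N i, ω v = ω' v) → A i ω → A i ω')
    (p : ℝ) (hp0 : 0 ≤ p) (d : ℕ) (hd1 : 1 ≤ d)
    (hp : ∀ i, ((univ.filter (A i)).card : ℝ) ≤ p * Fintype.card (V → K))
    (hd : ∀ i, (univ.filter fun j => ¬ Disjoint (N i) (N j)).card ≤ d)
    (h4 : 4 * p * d ≤ 1) : ∃ ω, ∀ i, ¬ A i ω := by
  classical
  have hd1' : (1 : ℝ) ≤ d := by exact_mod_cast hd1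
  have hΩ : (0 : ℝ) < Fintype.card (V → K) := by
    have : 0 < Fintype.card (V → K) := Fintype.card_pos
    exact_mod_cast this
  set good : Finset I → Finset (V → K) :=
    fun T => univ.filter fun ω => ∀ j ∈ T, ¬ A j ω with hgood
  set bad : I → Finset I → Finset (V → K) :=
    fun i T => univ.filter fun ω => A i ω ∧ ∀ j ∈ T, ¬ A j ω with hbad
  have hmg : ∀ T ω, ω ∈ good T ↔ ∀ j ∈ T, ¬ A j ω := by
    intro T ω
    simp [hgood]
  have hmb : ∀ i T ω, ω ∈ bad i T ↔ A i ω ∧ ∀ j ∈ T, ¬ A j ω := by
    intro i T ω
    simp [hbad]
  have hind : ∀ (i : I) (T : Finset I), (∀ j ∈ T, Disjoint (N i) (N j)) →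
      ((bad i T).card : ℝ) ≤ p * (good T).card := by
    intro i T hT
    have h1 := lll_indep (N i) (A i) (fun ω => ∀ j ∈ T, ¬ A j ω) (hN i) (by
      intro ω ω' hω hg j hj hA
      refine hg j hj (hN j ω' ω (fun v hv => ?_) hA)
      refine (hω v (fun hvi => ?_)).symm
      exact (Finset.disjoint_left.1 (hT j hj)) hvi hv)
    have h2 : ((bad i T).card : ℝ) * Fintype.card (V → K) =
        ((univ.filter (A i)).card : ℝ) * (good T).card := by
      exact_mod_cast h1
    have h3 : ((univ.filter (A i)).card : ℝ) * (good T).card ≤
        (p * Fintype.card (V → K)) * (good T).card :=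
      mul_le_mul_of_nonneg_right (hp i) (Nat.cast_nonneg _)
    have h4' : ((bad i T).card : ℝ) * Fintype.card (V → K) ≤
        (p * (good T).card) * Fintype.card (V → K) := by
      rw [h2]
      calc _ ≤ _ := h3
        _ = _ := by ring
    exact le_of_mul_le_mul_right h4' hΩ
  have claim : ∀ (n : ℕ) (T : Finset I), T.card = n → ∀ i,
      ((bad i T).card : ℝ) ≤ 2 * p * (good T).card := by
    intro n
    induction n using Nat.strong_induction_on with
    | _ n ih =>
      intro T hT i
      have hg0 : (0 : ℝ) ≤ (good T).card := Nat.cast_nonneg _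
      by_cases hi : i ∈ T
      · have h0 : bad i T = ∅ := by
          apply Finset.eq_empty_of_forall_notMem
          intro ω hω
          rw [hmb] at hω
          exact hω.2 i hi hω.1
        rw [h0, Finset.card_empty]
        push_cast
        positivity
      · set T1 := T.filter (fun j => ¬ Disjoint (N i) (N j)) with hT1
        set T2 := T.filter (fun j => Disjoint (N i) (N j)) with hT2
        have hb2 : ((bad i T2).card : ℝ) ≤ p * (good T2).card :=
          hind i T2 (fun j hj => (Finset.mem_filter.1 hj).2)
        have hle : ((bad i T).card : ℝ) ≤ (bad i T2).card := by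
          have : bad i T ⊆ bad i T2 := by
            intro ω hω
            rw [hmb] at hω ⊢
            exact ⟨hω.1, fun j hj => hω.2 j (Finset.mem_filter.1 hj).1⟩
          exact_mod_cast Finset.card_le_card this
        have hg2 : ((good T2).card : ℝ) ≤ 2 * (good T).card := by
          by_cases hT1e : T1 = ∅
          · have hTT : good T2 = good T := by
              ext ω
              rw [hmg, hmg]
              constructor
              · intro h j hj
                by_cases hdj : Disjoint (N i) (N j)
                · exact h j (Finset.mem_filter.2 ⟨hj, hdj⟩)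
                · exfalso
                  have : j ∈ T1 := Finset.mem_filter.2 ⟨hj, hdj⟩
                  rw [hT1e] at this
                  exact absurd this (Finset.notMem_empty j)
              · intro h j hj
                exact h j (Finset.mem_filter.1 hj).1
            rw [hTT]
            linarith
          · have hlt : T2.card < n := by
              rw [← hT]
              apply Finset.card_lt_card
              rw [Finset.ssubset_iff_subset_ne]
              refine ⟨Finset.filter_subset _ _, fun heq => hT1e ?_⟩
              apply Finset.eq_empty_of_forall_notMem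
              intro j hj
              obtain ⟨hjT, hjd⟩ := Finset.mem_filter.1 hj
              rw [← heq] at hjT
              exact hjd (Finset.mem_filter.1 hjT).2
            have hih := ih T2.card hlt T2 rfl
            have hsub : good T2 ⊆ good T ∪ T1.biUnion fun j => bad j T2 := by
              intro ω hω
              rw [Finset.mem_union]
              by_cases hall : ∀ j ∈ T1, ¬ A j ω
              · left
                rw [hmg] at hω ⊢
                intro j hj
                by_cases hdj : Disjoint (N i) (N j)
                · exact hω j (Finset.mem_filter.2 ⟨hj, hdj⟩)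
                · exact hall j (Finset.mem_filter.2 ⟨hj, hdj⟩)
              · right
                push Not at hall
                obtain ⟨j, hj, hA⟩ := hall
                rw [Finset.mem_biUnion]
                refine ⟨j, hj, ?_⟩
                rw [hmb]
                exact ⟨hA, (hmg T2 ω).1 hω⟩
            have hc1 : (good T2).card ≤ (good T).card + ∑ j ∈ T1, (bad j T2).card :=
              (Finset.card_le_card hsub).trans ((Finset.card_union_le _ _).trans
                (Nat.add_le_add_left Finset.card_biUnion_le _))
            have hc2 : ((good T2).card : ℝ) ≤ (good T).card + ∑ j ∈ T1, ((bad j T2).card : ℝ) := by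
              exact_mod_cast hc1
            have hc3 : ∑ j ∈ T1, ((bad j T2).card : ℝ) ≤ T1.card * (2 * p * (good T2).card) := by
              calc ∑ j ∈ T1, ((bad j T2).card : ℝ) ≤ ∑ _j ∈ T1, (2 * p * (good T2).card) :=
                    Finset.sum_le_sum fun j _ => hih j
                _ = T1.card * (2 * p * (good T2).card) := by
                    rw [Finset.sum_const, nsmul_eq_mul]
            have hT1c : (T1.card : ℝ) ≤ d := by
              have h5 : T1.card ≤ (univ.filter fun j => ¬ Disjoint (N i) (N j)).card := by
                apply Finset.card_le_card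
                intro j hj
                exact Finset.mem_filter.2 ⟨Finset.mem_univ j, (Finset.mem_filter.1 hj).2⟩
              exact_mod_cast h5.trans (hd i)
            have hg20 : (0 : ℝ) ≤ (good T2).card := Nat.cast_nonneg _
            have hc4 : (T1.card : ℝ) * (2 * p * (good T2).card) ≤ (1 / 2) * (good T2).card := by
              calc (T1.card : ℝ) * (2 * p * (good T2).card) ≤ d * (2 * p * (good T2).card) :=
                    mul_le_mul_of_nonneg_right hT1c (by positivity)
                _ = (1 / 2) * (4 * p * d) * (good T2).card := by ring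
                _ ≤ (1 / 2) * 1 * (good T2).card := by
                    apply mul_le_mul_of_nonneg_right _ hg20
                    linarith
                _ = (1 / 2) * (good T2).card := by ring
            linarith
        calc ((bad i T).card : ℝ) ≤ (bad i T2).card := hle
          _ ≤ p * (good T2).card := hb2
          _ ≤ p * (2 * (good T).card) := mul_le_mul_of_nonneg_left hg2 hp0
          _ = 2 * p * (good T).card := by ring
  have hp14 : p ≤ 1 / 4 := by nlinarith
  have hpos : ∀ T : Finset I, (0 : ℝ) < (good T).card := by
    intro T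
    induction T using Finset.induction_on with
    | empty =>
      have h0 : good ∅ = univ := by
        ext ω
        rw [hmg]
        simp
      rw [h0, Finset.card_univ]
      exact hΩ
    | insert i T hi ihT =>
      have h1 : good T ⊆ good (insert i T) ∪ bad i T := by
        intro ω hω
        rw [Finset.mem_union]
        by_cases hA : A i ω
        · right
          rw [hmb]
          exact ⟨hA, (hmg T ω).1 hω⟩
        · left
          rw [hmg] at hω ⊢
          intro j hj
          rcases Finset.mem_insert.1 hj with rfl | hj
          · exact hA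
          · exact hω j hj
      have h2 : (good T).card ≤ (good (insert i T)).card + (bad i T).card :=
        (Finset.card_le_card h1).trans (Finset.card_union_le _ _)
      have h3 : ((good T).card : ℝ) ≤ (good (insert i T)).card + (bad i T).card := by
        exact_mod_cast h2
      have h4' := claim T.card T rfl i
      nlinarith
  have hfin := hpos univ
  have hne : (good univ).Nonempty := by
    rw [← Finset.card_pos]
    exact_mod_cast hfin
  obtain ⟨ω, hω⟩ := hne
  exact ⟨ω, fun i => (hmg univ ω).1 hω i (Finset.mem_univ i)⟩

end Pool.Agent.H.MP_5bc4af.H5
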