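import Pool.Agent.H.MP_5bc4af_co.helper5.Reg
import Pool.Agent.H.MP_5bc4af_co.helper5.Drop
import Pool.Agent.H.MP_5bc4af_co.helper5.Color

/-!
# MP_5bc4af : the main inequality
-/

open Finset Equiv Equiv.Perm

namespace Pool.Agent.H.MP_5bc4af.H5

variable {V : Type*} [Fintype V] [DecidableEq V]

/-- degrees of a family of sums over permutations -/
theorem dg_family {J : Type*} [Fintype J] [DecidableEq J] (T : J → Finset V) (ρ : J → Perm V)
    (x : V) : dg (∑ j, ∑ v ∈ T j, ev v (ρ j v)) x ≤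
      (univ.filter fun j => x ∈ T j ∧ ρ j x ≠ x).card +
      (univ.filter fun j => (ρ j).symm x ∈ T j ∧ ρ j x ≠ x).card := by
  classical
  rw [Finset.sum_sigma']
  refine (dg_sum_ev_le _ (fun p : (_ : J) × V => p.2) (fun p => ρ p.1 p.2) x).trans ?_
  apply add_le_add
  · refine Finset.card_le_card_of_injOn (fun p => p.1) ?_ ?_
    · intro p hp
      simp only [Finset.coe_filter, Finset.mem_sigma, Finset.mem_univ, true_and,
        Set.mem_ofPred_eq] at hp ⊢
      obtain ⟨h1, h2, h3⟩ := hp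
      rw [h3] at h1 h2
      exact ⟨h1, fun hc => h2 hc.symm⟩
    · intro p hp q hq hpq
      simp only [Finset.coe_filter, Finset.mem_sigma, Finset.mem_univ, true_and,
        Set.mem_ofPred_eq] at hp hq
      obtain ⟨j, v⟩ := p
      obtain ⟨j', v'⟩ := q
      simp only at hp hq hpq
      subst hpq
      rw [hp.2.2, hq.2.2]
  · refine Finset.card_le_card_of_injOn (fun p => p.1) ?_ ?_
    · intro p hp
      simp only [Finset.coe_filter, Finset.mem_sigma, Finset.mem_univ, true_and,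
        Set.mem_ofPred_eq] at hp ⊢
      obtain ⟨h1, h2, h3⟩ := hp
      have h4 : (ρ p.1).symm x = p.2 := by rw [Equiv.symm_apply_eq]; exact h3.symm
      rw [h4]
      refine ⟨h1, fun hc => h2 ?_⟩
      rw [h3]
      exact (ρ p.1).injective (h3.trans hc.symm)
    · intro p hp q hq hpq
      simp only [Finset.coe_filter, Finset.mem_sigma, Finset.mem_univ, true_and,
        Set.mem_ofPred_eq] at hp hq
      obtain ⟨j, v⟩ := p
      obtain ⟨j', v'⟩ := q
      simp only at hp hq hpq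
      subst hpq
      have : v = v' := (ρ j).injective (hp.2.2.trans hq.2.2.symm)
      rw [this]

/-- the vector of the arcs is the sum over the kept parts -/
theorem sum_reg {r : ℕ} {B : Finset (V × V)} {σ : Fin r → Perm V} {Re : Fin r → Finset V}
    (h1 : ∀ j, ∀ v ∈ Re j, (v, σ j v) ∈ B)
    (h2 : ∀ e ∈ B, ∃! j, e.1 ∈ Re j ∧ σ j e.1 = e.2) :
    ∑ e ∈ B, ev e.1 e.2 = ∑ j, ∑ v ∈ Re j, ev v (σ j v) := by
  classical
  rw [Finset.sum_sigma']
  symm
  refine Finset.sum_bij (fun p _ => (p.2, σ p.1 p.2)) ?_ ?_ ?_ ?_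
  · intro p hp
    rw [Finset.mem_sigma] at hp
    exact h1 _ _ hp.2
  · intro p hp q hq hpq
    rw [Finset.mem_sigma] at hp hq
    obtain ⟨j, v⟩ := p
    obtain ⟨j', v'⟩ := q
    simp only [Prod.mk.injEq] at hp hq hpq
    obtain ⟨h3, h4⟩ := hpq
    subst h3
    obtain ⟨j0, -, hj0⟩ := h2 _ (h1 _ _ hp.2)
    have e1 := hj0 j ⟨hp.2, rfl⟩
    have e2 := hj0 j' ⟨hq.2, h4.symm⟩
    rw [e1, e2]
  · intro e he
    obtain ⟨j, ⟨hj1, hj2⟩, -⟩ := h2 e he
    refine ⟨⟨j, e.1⟩, ?_, ?_⟩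
    · rw [Finset.mem_sigma]
      exact ⟨mem_univ _, hj1⟩
    · simp only
      rw [hj2]
  · intro p _
    rfl

/-- One permutation: kept part `S`, dropped part `T`, merged permutation `τ`. -/
theorem one_perm {σ τ : Perm V} {Re T : Finset V} (hT : T ⊆ Re)
    (hτ : ∀ v ∈ Re \ T, τ v = σ v) :
    ∑ v ∈ Re, ev v (σ v) = chi τ + (∑ v ∈ T, ev v (σ v) + ∑ v ∈ (Re \ T)ᶜ, ev v (τ v)) := by
  have h1 : ∑ v ∈ Re, ev v (σ v) = ∑ v ∈ Re \ T, ev v (σ v) + ∑ v ∈ T, ev v (σ v) :=
    (Finset.sum_sdiff hT).symm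
  have h2 : chi τ = ∑ v ∈ Re \ T, ev v (τ v) + ∑ v ∈ (Re \ T)ᶜ, ev v (τ v) := by
    unfold chi
    rw [Finset.sum_add_sum_compl]
  have h3 : ∑ v ∈ Re \ T, ev v (σ v) = ∑ v ∈ Re \ T, ev v (τ v) :=
    Finset.sum_congr rfl fun v hv => by rw [hτ v hv]
  rw [h1, h2, h3]
  have h4 := two_zero (∑ v ∈ (Re \ T)ᶜ, ev v (τ v))
  generalize ∑ v ∈ (Re \ T)ᶜ, ev v (τ v) = a at *
  generalize ∑ v ∈ Re \ T, ev v (τ v) = b at *
  generalize ∑ v ∈ T, ev v (σ v) = c at *
  have e1 : b + a + (c + a) = (a + a) + (b + c) := by abel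
  rw [e1, h4, zero_add]

/-- lengths of the cycles which follow the colours -/
theorem cycle_len {m : ℕ} [Fact m.Prime] (c : V → ZMod m) (i : ZMod m) (hi : i ≠ 0) (σ : Perm V)
    (v : V) (hv : σ v ≠ v) (h : ∀ w, SameCycle σ v w → c (σ w) = c w + i) :
    m ≤ (σ.cycleOf v).support.card := by
  have h1 : ∀ n : ℕ, c ((σ ^ n) v) = c v + n * i := by
    intro n
    induction n with
    | zero => simp
    | succ n ih =>
      rw [pow_succ', mul_apply, h _ ⟨n, by rw [zpow_natCast]⟩, ih]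
      push_cast
      ring
  have hcyc : (σ.cycleOf v).IsCycle := isCycle_cycleOf σ hv
  set L := (σ.cycleOf v).support.card with hL
  have hL2 : 2 ≤ L := hcyc.two_le_card_support
  have h2 : (σ ^ L) v = v := by
    have h3 : (σ.cycleOf v) ^ L = 1 := by
      rw [hL, ← hcyc.orderOf]
      exact pow_orderOf_eq_one _
    have h4 := cycleOf_pow_apply_self σ v L
    rw [h3] at h4
    exact h4.symm
  have h3 := h1 L
  rw [h2] at h3
  have h4 : (L : ZMod m) * i = 0 := by
    have : c v + 0 = c v + L * i := by rw [add_zero]; exact h3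
    exact (add_left_cancel this).symm
  rcases mul_eq_zero.1 h4 with h5 | h5
  · rw [ZMod.natCast_eq_zero_iff] at h5
    exact Nat.le_of_dvd (by omega) h5
  · exact absurd h5 hi

end Pool.Agent.H.MP_5bc4af.H5
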