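import Pool.Agent.H.MP_5bc4af_co.helper5.Main

/-!
# MP_5bc4af : the main inequality, assembly
-/

open Finset Equiv Equiv.Perm

namespace Pool.Agent.H.MP_5bc4af.H5

variable {V : Type*} [Fintype V] [DecidableEq V]

/-- arcs of colour difference `i` -/
def BB (A : Finset (V × V)) {m : ℕ} (c : V → ZMod m) (i : ZMod m) : Finset (V × V) :=
  A.filter fun e => c e.2 = c e.1 + i

omit [Fintype V] in
theorem BB_out (A : Finset (V × V)) {m : ℕ} (c : V → ZMod m) (i : ZMod m) (v : V) :
    (BB A c i).filter (fun e => e.1 = v) = A.filter fun e => e.1 = v ∧ c e.2 = c v + i := by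
  ext e
  simp only [BB, Finset.mem_filter]
  constructor
  · rintro ⟨⟨h1, h2⟩, h3⟩
    rw [h3] at h2
    exact ⟨h1, h3, h2⟩
  · rintro ⟨h1, h2, h3⟩
    exact ⟨⟨h1, by rw [h2]; exact h3⟩, h2⟩

omit [Fintype V] in
theorem BB_in (A : Finset (V × V)) {m : ℕ} (c : V → ZMod m) (i : ZMod m) (v : V) :
    (BB A c i).filter (fun e => e.2 = v) = A.filter fun e => e.2 = v ∧ c e.1 = c v - i := by
  ext e
  simp only [BB, Finset.mem_filter]
  constructor
  · rintro ⟨⟨h1, h2⟩, h3⟩
    rw [h3] at h2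
    exact ⟨h1, h3, by rw [h2]; ring⟩
  · rintro ⟨h1, h2, h3⟩
    exact ⟨⟨h1, by rw [h2, h3]; ring⟩, h2⟩

omit [Fintype V] in
theorem sum_BB (A : Finset (V × V)) {m : ℕ} [NeZero m] (c : V → ZMod m) :
    ∑ e ∈ A, ev e.1 e.2 = ∑ e ∈ BB A c 0, ev e.1 e.2 +
      ∑ i : {i : ZMod m // i ≠ 0}, ∑ e ∈ BB A c i, ev e.1 e.2 := by
  classical
  have h1 : ∑ e ∈ A, ev e.1 e.2 = ∑ i : ZMod m, ∑ e ∈ BB A c i, ev e.1 e.2 := by
    rw [← Finset.sum_fiberwise_of_maps_to (t := (univ : Finset (ZMod m)))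
      (g := fun e : V × V => c e.2 - c e.1) (fun e _ => mem_univ _)]
    apply Finset.sum_congr rfl
    intro i _
    apply Finset.sum_congr _ fun _ _ => rfl
    ext e
    simp only [BB, Finset.mem_filter]
    constructor
    · rintro ⟨h1, h2⟩
      exact ⟨h1, by rw [← h2]; ring⟩
    · rintro ⟨h1, h2⟩
      exact ⟨h1, by rw [h2]; ring⟩
  rw [h1, ← Finset.add_sum_erase _ _ (mem_univ (0 : ZMod m))]
  congr 1
  exact Finset.sum_subtype _ (by simp) _

/-- index set of all permutations -/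
abbrev JJ (m r : ℕ) := {i : ZMod m // i ≠ 0} × Fin r

theorem card_JJ (m r : ℕ) [NeZero m] : Fintype.card (JJ m r) = (m - 1) * r := by
  rw [Fintype.card_prod, Fintype.card_fin, Fintype.card_subtype_compl, ZMod.card]
  simp

/-- The main inequality. -/
theorem main_ineq (f : Sym2 V → ZMod 2) (hd : ∀ v, f s(v, v) = 0) (hb : ∀ v, bd f v = 0)
    (k : ℕ) (hk : 1 ≤ k) (h : ∀ v, dg f v ≤ 2 * k) (m : ℕ) [Fact m.Prime] (hm : 3 ≤ m)
    (s : ℝ) (hs : 0 < s) (hexp : 16 * m * (k : ℝ) ^ 2 * Real.exp (-(s ^ 2 / (4 * k))) ≤ 1) :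
    ∃ n : ℕ, Cov f n ∧ (n : ℝ) ≤ k + 13 * k / m + 8 * m * s + 14 := by
  classical
  obtain ⟨A, hA1, hA2, hA3⟩ := exists_orientation f hd hb
  have hAo : ∀ v, (A.filter fun e => e.1 = v).card ≤ k := by
    intro v
    have := (hA3 v).1
    have := h v
    omega
  have hAi : ∀ v, (A.filter fun e => e.2 = v).card ≤ k := by
    intro v
    have := (hA3 v).2
    have := h v
    omega
  have hAio : ∀ v, (A.filter fun e => e.1 = v).card = (A.filter fun e => e.2 = v).card := by
    intro v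
    have := (hA3 v).1
    have := (hA3 v).2
    omega
  obtain ⟨c, hc⟩ := coloring A k hk hAo hAi m s hs hexp
  have hm0 : (0 : ℝ) < m := by
    have : 0 < m := by omega
    exact_mod_cast this
  have hk0 : (0 : ℝ) < k := by exact_mod_cast hk
  -- degrees of the classes
  set o : ZMod m → V → ℕ := fun i v => ((BB A c i).filter fun e => e.1 = v).card with ho
  set ii : ZMod m → V → ℕ := fun i v => ((BB A c i).filter fun e => e.2 = v).card with hii
  have ho1 : ∀ i v, |(o i v : ℝ) - ((A.filter fun e => e.1 = v).card : ℝ) / m| ≤ s := by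
    intro i v
    rw [ho]
    simp only
    rw [BB_out]
    exact (hc v (c v + i)).1
  have hi1 : ∀ i v, |(ii i v : ℝ) - ((A.filter fun e => e.1 = v).card : ℝ) / m| ≤ s := by
    intro i v
    rw [hii]
    simp only
    rw [BB_in, hAio]
    exact (hc v (c v - i)).2
  have hAm : ∀ v, ((A.filter fun e => e.1 = v).card : ℝ) / m ≤ k / m := by
    intro v
    apply div_le_div_of_nonneg_right _ hm0.le
    exact_mod_cast hAo v
  have ho2 : ∀ i v, (o i v : ℝ) ≤ k / m + s := by
    intro i v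
    have := (abs_le.1 (ho1 i v)).2
    have := hAm v
    linarith
  have hi2 : ∀ i v, (ii i v : ℝ) ≤ k / m + s := by
    intro i v
    have := (abs_le.1 (hi1 i v)).2
    have := hAm v
    linarith
  set r : ℕ := ⌊(k : ℝ) / m + s⌋₊ with hr
  set sd : ℕ := ⌊2 * s⌋₊ with hsd
  have hrle : (r : ℝ) ≤ k / m + s := Nat.floor_le (by positivity)
  have hsdle : (sd : ℝ) ≤ 2 * s := Nat.floor_le (by positivity)
  have hreg : ∀ i : ZMod m, ∃ (σ : Fin r → Equiv.Perm V) (Re : Fin r → Finset V),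
      (∀ j, ∀ v ∈ Re j, (v, σ j v) ∈ BB A c i) ∧
      (∀ e ∈ BB A c i, ∃! j, e.1 ∈ Re j ∧ σ j e.1 = e.2) ∧
      (∀ v, (univ.filter fun j => σ j v ≠ v ∧ v ∉ Re j).card ≤ sd) ∧
      (∀ v, (univ.filter fun j => σ j v ≠ v ∧ (σ j).symm v ∉ Re j).card ≤ sd) := by
    intro i
    apply regularize
    · intro v hv
      have h1 : (v, v) ∈ A := (Finset.mem_filter.1 hv).1
      exact hA1 v v h1 h1
    · intro v
      exact Nat.le_floor (ho2 i v)
    · intro v
      exact Nat.le_floor (hi2 i v)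
    · intro v
      have h1 := abs_le.1 (ho1 i v)
      have h2 := abs_le.1 (hi1 i v)
      have h3 : (o i v : ℝ) - ii i v ≤ 2 * s := by linarith [h1.2, h2.1]
      have h4 : o i v - ii i v ≤ sd := by
        apply Nat.le_floor
        rcases le_total (ii i v) (o i v) with h5 | h5
        · rw [Nat.cast_sub h5]
          exact h3
        · rw [Nat.sub_eq_zero_of_le h5]
          simp only [Nat.cast_zero]
          linarith
      have h5 : o i v ≤ ii i v + sd := by omega
      exact h5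
    · intro v
      have h1 := abs_le.1 (ho1 i v)
      have h2 := abs_le.1 (hi1 i v)
      have h3 : (ii i v : ℝ) - o i v ≤ 2 * s := by linarith [h1.1, h2.2]
      have h4 : ii i v - o i v ≤ sd := by
        apply Nat.le_floor
        rcases le_total (o i v) (ii i v) with h5 | h5
        · rw [Nat.cast_sub h5]
          exact h3
        · rw [Nat.sub_eq_zero_of_le h5]
          simp only [Nat.cast_zero]
          linarith
      have h5 : ii i v ≤ o i v + sd := by omega
      exact h5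
  choose σ Re hR1 hR2 hR3 hR4 using hreg
  -- all permutations
  have hJc : Fintype.card (JJ m r) = (m - 1) * r := card_JJ m r
  obtain ⟨T, hT1, hT2, hT3, hT4⟩ := drop (J := JJ m r) (fun j => σ j.1 j.2) (fun j => Re j.1 j.2) m hm
    (by
      rintro ⟨i, j⟩ v hv hall
      refine cycle_len c i i.2 (σ i j) v hv ?_
      intro w hw
      have h1 := hR1 i j w (hall w hw)
      exact (Finset.mem_filter.1 h1).2)
  have hmerge : ∀ j : JJ m r, ∃ τ : Perm V, (∀ v ∈ Re j.1 j.2 \ T j, τ v = σ j.1 j.2 v) ∧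
      τ.support = (σ j.1 j.2).support ∧ (τ = 1 ∨ τ.IsCycle) := by
    intro j
    exact merge (σ j.1 j.2) (Re j.1 j.2 \ T j) fun v hv => hT2 j v hv
  choose τ hτ1 hτ2 hτ3 using hmerge
  -- the remainder
  set R : Sym2 V → ZMod 2 := ∑ e ∈ BB A c 0, ev e.1 e.2 +
    (∑ j : JJ m r, ∑ v ∈ T j, ev v (σ j.1 j.2 v) +
      ∑ j : JJ m r, ∑ v ∈ (Re j.1 j.2 \ T j)ᶜ, ev v (τ j v)) with hRdef
  have hf : f = ∑ j : JJ m r, chi (τ j) + R := by
    rw [vec_orient f A hA1 hA2, sum_BB A c]
    have h1 : ∑ i : {i : ZMod m // i ≠ 0}, ∑ e ∈ BB A c i, ev e.1 e.2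
        = ∑ j : JJ m r, ∑ v ∈ Re j.1 j.2, ev v (σ j.1 j.2 v) := by
      rw [Fintype.sum_prod_type]
      apply Finset.sum_congr rfl
      intro i _
      exact sum_reg (hR1 i) (hR2 i)
    have h2 : ∑ j : JJ m r, ∑ v ∈ Re j.1 j.2, ev v (σ j.1 j.2 v)
        = ∑ j : JJ m r, (chi (τ j) + (∑ v ∈ T j, ev v (σ j.1 j.2 v) +
          ∑ v ∈ (Re j.1 j.2 \ T j)ᶜ, ev v (τ j v))) := by
      apply Finset.sum_congr rfl
      intro j _
      exact one_perm (hT1 j) (hτ1 j)
    rw [h1, h2, hRdef, Finset.sum_add_distrib, Finset.sum_add_distrib]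
    abel
  have hRd : ∀ v, R s(v, v) = 0 := by
    intro v
    have h1 : f s(v, v) = (∑ j : JJ m r, chi (τ j)) s(v, v) + R s(v, v) := by
      conv_lhs => rw [hf]
      rfl
    rw [hd, Finset.sum_apply, Finset.sum_eq_zero fun j _ => chi_diag (τ j) v, zero_add] at h1
    exact h1.symm
  have hRb : ∀ v, bd R v = 0 := by
    intro v
    have h1 : bd f v = bd (∑ j : JJ m r, chi (τ j)) v + bd R v := by
      conv_lhs => rw [hf]
      exact bd_add _ _ _
    rw [hb, bd_sum, Finset.sum_eq_zero fun j _ => bd_chi (τ j) v, zero_add] at h1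
    exact h1.symm
  -- degrees of the remainder
  set D : ℝ := 3 * Fintype.card (JJ m r) / m + 3 with hD
  have hcardR : ∀ x, ((univ.filter fun j : JJ m r => σ j.1 j.2 x ≠ x ∧ x ∉ Re j.1 j.2).card : ℝ)
      ≤ (m - 1) * (2 * s) := by
    intro x
    have h1 : (univ.filter fun j : JJ m r => σ j.1 j.2 x ≠ x ∧ x ∉ Re j.1 j.2).card
        = ∑ i : {i : ZMod m // i ≠ 0},
          (univ.filter fun j => σ i j x ≠ x ∧ x ∉ Re i j).card := by
      rw [Finset.card_filter, Fintype.sum_prod_type]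
      apply Finset.sum_congr rfl
      intro i _
      rw [Finset.card_filter]
    have h2 : ∑ i : {i : ZMod m // i ≠ 0},
        (univ.filter fun j => σ i j x ≠ x ∧ x ∉ Re i j).card ≤ (m - 1) * sd := by
      calc _ ≤ ∑ _i : {i : ZMod m // i ≠ 0}, sd := Finset.sum_le_sum fun i _ => hR3 i x
        _ = (m - 1) * sd := by
          rw [Finset.sum_const, Finset.card_univ, Fintype.card_subtype_compl, ZMod.card]
          simp
    rw [h1]
    have h3 : ((m - 1 : ℕ) : ℝ) = m - 1 := by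
      rw [Nat.cast_sub (by omega)]
      simp
    have h4 : (1 : ℝ) ≤ m := by
      have : 1 ≤ m := by omega
      exact_mod_cast this
    calc ((∑ i : {i : ZMod m // i ≠ 0},
          (univ.filter fun j => σ i j x ≠ x ∧ x ∉ Re i j).card : ℕ) : ℝ)
        ≤ (((m - 1) * sd : ℕ) : ℝ) := by exact_mod_cast h2
      _ = (m - 1) * (sd : ℝ) := by rw [Nat.cast_mul, h3]
      _ ≤ (m - 1) * (2 * s) := mul_le_mul_of_nonneg_left hsdle (by linarith)
  have hcardR' : ∀ x, ((univ.filter fun j : JJ m r => σ j.1 j.2 x ≠ x ∧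
      (σ j.1 j.2).symm x ∉ Re j.1 j.2).card : ℝ) ≤ (m - 1) * (2 * s) := by
    intro x
    have h1 : (univ.filter fun j : JJ m r => σ j.1 j.2 x ≠ x ∧
          (σ j.1 j.2).symm x ∉ Re j.1 j.2).card
        = ∑ i : {i : ZMod m // i ≠ 0},
          (univ.filter fun j => σ i j x ≠ x ∧ (σ i j).symm x ∉ Re i j).card := by
      rw [Finset.card_filter, Fintype.sum_prod_type]
      apply Finset.sum_congr rfl
      intro i _
      rw [Finset.card_filter]
    have h2 : ∑ i : {i : ZMod m // i ≠ 0},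
        (univ.filter fun j => σ i j x ≠ x ∧ (σ i j).symm x ∉ Re i j).card ≤ (m - 1) * sd := by
      calc _ ≤ ∑ _i : {i : ZMod m // i ≠ 0}, sd := Finset.sum_le_sum fun i _ => hR4 i x
        _ = (m - 1) * sd := by
          rw [Finset.sum_const, Finset.card_univ, Fintype.card_subtype_compl, ZMod.card]
          simp
    rw [h1]
    have h3 : ((m - 1 : ℕ) : ℝ) = m - 1 := by
      rw [Nat.cast_sub (by omega)]
      simp
    have h4 : (1 : ℝ) ≤ m := by
      have : 1 ≤ m := by omega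
      exact_mod_cast this
    calc ((∑ i : {i : ZMod m // i ≠ 0},
          (univ.filter fun j => σ i j x ≠ x ∧ (σ i j).symm x ∉ Re i j).card : ℕ) : ℝ)
        ≤ (((m - 1) * sd : ℕ) : ℝ) := by exact_mod_cast h2
      _ = (m - 1) * (sd : ℝ) := by rw [Nat.cast_mul, h3]
      _ ≤ (m - 1) * (2 * s) := mul_le_mul_of_nonneg_left hsdle (by linarith)
  have hdeg : ∀ x, (dg R x : ℝ) ≤ 2 * (k / m + s) + 4 * D + 2 * ((m - 1) * (2 * s)) := by
    intro x
    have e0 : (dg (∑ e ∈ BB A c 0, ev e.1 e.2) x : ℝ) ≤ 2 * (k / m + s) := by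
      have h1 := dg_sum_ev_le (BB A c 0) (fun e => e.1) (fun e => e.2) x
      have h2 : ((BB A c 0).filter fun e => e.1 ≠ e.2 ∧ e.1 = x).card ≤ o 0 x :=
        Finset.card_le_card fun e he => by
          rw [Finset.mem_filter] at he ⊢
          exact ⟨he.1, he.2.2⟩
      have h3 : ((BB A c 0).filter fun e => e.1 ≠ e.2 ∧ e.2 = x).card ≤ ii 0 x :=
        Finset.card_le_card fun e he => by
          rw [Finset.mem_filter] at he ⊢
          exact ⟨he.1, he.2.2⟩
      have h4 : dg (∑ e ∈ BB A c 0, ev e.1 e.2) x ≤ o 0 x + ii 0 x :=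
        h1.trans (add_le_add h2 h3)
      have h5 : (dg (∑ e ∈ BB A c 0, ev e.1 e.2) x : ℝ) ≤ o 0 x + ii 0 x := by exact_mod_cast h4
      linarith [ho2 0 x, hi2 0 x]
    have e1 : (dg (∑ j : JJ m r, ∑ v ∈ T j, ev v (σ j.1 j.2 v)) x : ℝ) ≤ 2 * D := by
      have h1 := dg_family T (fun j : JJ m r => σ j.1 j.2) x
      have h2 : (univ.filter fun j : JJ m r => x ∈ T j ∧ σ j.1 j.2 x ≠ x).card
          ≤ (univ.filter fun j : JJ m r => x ∈ T j).card :=
        Finset.card_le_card fun e he => by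
          rw [Finset.mem_filter] at he ⊢
          exact ⟨he.1, he.2.1⟩
      have h3 : (univ.filter fun j : JJ m r => (σ j.1 j.2).symm x ∈ T j ∧ σ j.1 j.2 x ≠ x).card
          ≤ (univ.filter fun j : JJ m r => (σ j.1 j.2).symm x ∈ T j).card :=
        Finset.card_le_card fun e he => by
          rw [Finset.mem_filter] at he ⊢
          exact ⟨he.1, he.2.1⟩
      have h4 := h1.trans (add_le_add h2 h3)
      have h5 : (dg (∑ j : JJ m r, ∑ v ∈ T j, ev v (σ j.1 j.2 v)) x : ℝ)
          ≤ (univ.filter fun j : JJ m r => x ∈ T j).card +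
            (univ.filter fun j : JJ m r => (σ j.1 j.2).symm x ∈ T j).card := by exact_mod_cast h4
      linarith [hT3 x, hT4 x]
    have e2 : (dg (∑ j : JJ m r, ∑ v ∈ (Re j.1 j.2 \ T j)ᶜ, ev v (τ j v)) x : ℝ)
        ≤ 2 * D + 2 * ((m - 1) * (2 * s)) := by
      have h1 := dg_family (fun j : JJ m r => (Re j.1 j.2 \ T j)ᶜ) τ x
      have hsup : ∀ j : JJ m r, τ j x ≠ x ↔ σ j.1 j.2 x ≠ x := by
        intro j
        rw [← mem_support, ← mem_support, hτ2]
      have h2 : (univ.filter fun j : JJ m r => x ∈ (Re j.1 j.2 \ T j)ᶜ ∧ τ j x ≠ x).card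
          ≤ (univ.filter fun j : JJ m r => σ j.1 j.2 x ≠ x ∧ x ∉ Re j.1 j.2).card +
            (univ.filter fun j : JJ m r => x ∈ T j).card := by
        refine (Finset.card_le_card ?_).trans (Finset.card_union_le _ _)
        intro j hj
        rw [Finset.mem_filter] at hj
        obtain ⟨-, hj1, hj2⟩ := hj
        rw [hsup] at hj2
        rw [Finset.mem_compl, Finset.mem_sdiff] at hj1
        rw [Finset.mem_union, Finset.mem_filter, Finset.mem_filter]
        by_cases hx : x ∈ Re j.1 j.2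
        · right
          refine ⟨mem_univ _, ?_⟩
          by_contra hcon
          exact hj1 ⟨hx, hcon⟩
        · left
          exact ⟨mem_univ _, hj2, hx⟩
      have h3 : (univ.filter fun j : JJ m r => (τ j).symm x ∈ (Re j.1 j.2 \ T j)ᶜ ∧ τ j x ≠ x).card
          ≤ (univ.filter fun j : JJ m r => σ j.1 j.2 x ≠ x ∧ (σ j.1 j.2).symm x ∉ Re j.1 j.2).card +
            (univ.filter fun j : JJ m r => (σ j.1 j.2).symm x ∈ T j).card := by
        refine (Finset.card_le_card ?_).trans (Finset.card_union_le _ _)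
        intro j hj
        rw [Finset.mem_filter] at hj
        obtain ⟨-, hj1, hj2⟩ := hj
        rw [hsup] at hj2
        rw [Finset.mem_compl] at hj1
        have hj3 : (σ j.1 j.2).symm x ∉ Re j.1 j.2 \ T j := by
          intro hcon
          apply hj1
          have h5 := hτ1 j _ hcon
          rw [Equiv.apply_symm_apply] at h5
          have h6 : (τ j).symm x = (σ j.1 j.2).symm x := by
            rw [Equiv.symm_apply_eq]
            exact h5.symm
          rw [h6]
          exact hcon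
        rw [Finset.mem_sdiff] at hj3
        rw [Finset.mem_union, Finset.mem_filter, Finset.mem_filter]
        by_cases hx : (σ j.1 j.2).symm x ∈ Re j.1 j.2
        · right
          refine ⟨mem_univ _, ?_⟩
          by_contra hcon
          exact hj3 ⟨hx, hcon⟩
        · left
          exact ⟨mem_univ _, hj2, hx⟩
      have h4 := h1.trans (add_le_add h2 h3)
      have h5 : (dg (∑ j : JJ m r, ∑ v ∈ (Re j.1 j.2 \ T j)ᶜ, ev v (τ j v)) x : ℝ)
          ≤ ((univ.filter fun j : JJ m r => σ j.1 j.2 x ≠ x ∧ x ∉ Re j.1 j.2).card +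
            (univ.filter fun j : JJ m r => x ∈ T j).card) +
            ((univ.filter fun j : JJ m r => σ j.1 j.2 x ≠ x ∧
              (σ j.1 j.2).symm x ∉ Re j.1 j.2).card +
            (univ.filter fun j : JJ m r => (σ j.1 j.2).symm x ∈ T j).card) := by exact_mod_cast h4
      linarith [hT3 x, hT4 x, hcardR x, hcardR' x]
    have e3 : dg R x ≤ dg (∑ e ∈ BB A c 0, ev e.1 e.2) x +
        (dg (∑ j : JJ m r, ∑ v ∈ T j, ev v (σ j.1 j.2 v)) x +
          dg (∑ j : JJ m r, ∑ v ∈ (Re j.1 j.2 \ T j)ᶜ, ev v (τ j v)) x) := by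
      rw [hRdef]
      exact (dg_add_le _ _ _).trans (add_le_add le_rfl (dg_add_le _ _ _))
    have e4 : (dg R x : ℝ) ≤ dg (∑ e ∈ BB A c 0, ev e.1 e.2) x +
        (dg (∑ j : JJ m r, ∑ v ∈ T j, ev v (σ j.1 j.2 v)) x +
          dg (∑ j : JJ m r, ∑ v ∈ (Re j.1 j.2 \ T j)ᶜ, ev v (τ j v)) x) := by exact_mod_cast e3
    linarith
  -- conclusion
  set X : ℝ := 2 * (k / m + s) + 4 * D + 2 * ((m - 1) * (2 * s)) with hX
  have hm1 : (1 : ℝ) ≤ m := by
    have : 1 ≤ m := by omega
    exact_mod_cast this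
  have hm3 : (3 : ℝ) ≤ m := by exact_mod_cast hm
  have hX0 : 0 ≤ X := by
    have h1 : 0 ≤ D := by positivity
    have h2 : 0 ≤ (m : ℝ) - 1 := by linarith
    positivity
  set q : ℕ := ⌈X / 2⌉₊ with hq
  have hq1 : ∀ v, dg R v ≤ 2 * q := by
    intro v
    have h1 := hdeg v
    have h2 : X / 2 ≤ q := Nat.le_ceil _
    have h3 : (dg R v : ℝ) ≤ ((2 * q : ℕ) : ℝ) := by
      push_cast
      linarith
    exact_mod_cast h3
  have hq2 : (2 * q : ℝ) ≤ X + 2 := by
    have h1 : (q : ℝ) < X / 2 + 1 := Nat.ceil_lt_add_one (by positivity)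
    linarith
  have hcov1 : Cov (∑ j : JJ m r, chi (τ j)) (∑ _j : JJ m r, 1) :=
    Cov.sum Finset.univ _ _ fun j _ => Cov.chi (hτ3 j)
  have hcov2 : Cov R (2 * q) := cov_rem R hRd hRb q hq1
  refine ⟨∑ _j : JJ m r, 1 + 2 * q, ?_, ?_⟩
  · rw [hf]
    exact hcov1.add hcov2
  · have h1 : ((∑ _j : JJ m r, 1 : ℕ) : ℝ) = (m - 1) * r := by
      rw [Finset.sum_const, Finset.card_univ, hJc, smul_eq_mul, mul_one, Nat.cast_mul,
        Nat.cast_sub (by omega)]
      simp
    have h2 : ((m : ℝ) - 1) * r ≤ (m - 1) * (k / m + s) :=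
      mul_le_mul_of_nonneg_left hrle (by linarith)
    have h3 : (Fintype.card (JJ m r) : ℝ) = (m - 1) * r := by
      rw [hJc, Nat.cast_mul, Nat.cast_sub (by omega)]
      simp
    have h4 : D ≤ 3 * (k / m + s) + 3 := by
      rw [hD, h3]
      have h5 : 3 * (((m : ℝ) - 1) * r) / m ≤ 3 * (k / m + s) := by
        rw [div_le_iff₀ hm0]
        have h6 : 0 ≤ (k : ℝ) / m + s := by positivity
        nlinarith
      linarith
    have h5 : ((m : ℝ) - 1) * (k / m + s) = k - k / m + (m - 1) * s := by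
      field_simp
    have h6 : (13 : ℝ) * k / m = 13 * (k / m) := by ring
    push_cast at h1 ⊢
    rw [h1, h6]
    have h7 : (9 : ℝ) * s ≤ 3 * m * s := by nlinarith
    nlinarith

end Pool.Agent.H.MP_5bc4af.H5
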