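import Pool.Agent.H.MP_5bc4af_co.helper5.Base

/-!
# MP_5bc4af : balanced orientation of an even graph

The graph has the edges `e : Sym2 V` with `f e ≠ 0`, no loops (`hd`), all degrees even (`hb`; `bd f v`
is the sum of `f s(v,w)` in `ZMod 2`, which is the degree `dg f v` modulo 2 since each nonzero value is
`1`). Hall (`Finset.all_card_le_biUnion_card_iff_exists_injective` or the `Fintype` form): edges
`e` to slots `(v, i)`, `v ∈ e`, `i < dg f v / 2`. Hall condition: for a set `F` of edges, the slots of the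
vertices `V(F)` number `∑ v ∈ V(F), dg f v / 2 ≥ (1/2) ∑ v ∈ V(F), deg_F v = |F|`. The total
number of slots is `(1/2) ∑ v, dg f v` = number of edges, so the injection is a bijection onto the
slots: each `v` is the chosen end of exactly `dg f v / 2` edges. Orient each edge from the chosen
end `v` to the other end; `A` = set of these arcs: the number of arcs with first component `v` is
`dg f v / 2`, so twice it is `dg f v` (even); the arcs with second component `v` are the others,
`dg f v - dg f v / 2 = dg f v / 2`.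
(`SimpleGraph.sum_degrees_eq_twice_card_edges` may help: `G.Adj u v ↔ f s(u,v) ≠ 0`.)
-/

open Finset

namespace Pool.Agent.H.MP_5bc4af.H5

variable {V : Type*} [Fintype V] [DecidableEq V]

theorem orient_even (f : Sym2 V → ZMod 2) (v : V) (hb : bd f v = 0) : Even (dg f v) := by
  have h1 : ((dg f v : ℕ) : ZMod 2) = bd f v := by
    unfold dg bd
    rw [Finset.card_filter]
    push_cast
    apply Finset.sum_congr rfl
    intro w _
    generalize f s(v, w) = x
    revert x
    decide
  rw [hb] at h1
  exact (ZMod.natCast_eq_zero_iff_even).1 h1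

/-- The edges at a vertex. -/
theorem orient_card_at (f : Sym2 V → ZMod 2) (v : V) :
    (univ.filter fun e : Sym2 V => f e ≠ 0 ∧ v ∈ e).card = dg f v := by
  classical
  unfold dg
  have h1 : (univ.filter fun e : Sym2 V => f e ≠ 0 ∧ v ∈ e)
      = (univ.filter fun w => f s(v, w) ≠ 0).image fun w => s(v, w) := by
    ext e
    simp only [Finset.mem_filter, Finset.mem_univ, true_and, Finset.mem_image]
    constructor
    · rintro ⟨h1, h2⟩
      obtain ⟨w, rfl⟩ := Sym2.mem_iff_exists.1 h2
      exact ⟨w, h1, rfl⟩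
    · rintro ⟨w, h1, rfl⟩
      exact ⟨h1, Sym2.mem_mk_left _ _⟩
  rw [h1, Finset.card_image_of_injective]
  intro w w' h
  exact Sym2.congr_right.1 h

theorem orient_ends (f : Sym2 V → ZMod 2) (hd : ∀ v, f s(v, v) = 0) (e : Sym2 V) (he : f e ≠ 0) :
    (univ.filter fun v => v ∈ e).card = 2 := by
  classical
  have h1 : ¬ e.IsDiag := by
    intro h
    induction e with
    | _ x y =>
      have h2 : x = y := h
      subst h2
      exact he (hd x)
  rw [← Sym2.card_toFinset_of_not_isDiag e h1]
  congr 1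
  ext v
  simp

/-- Handshake for a set of edges. -/
theorem orient_handshake (f : Sym2 V → ZMod 2) (hd : ∀ v, f s(v, v) = 0)
    (F : Finset (Sym2 V)) (hF : ∀ e ∈ F, f e ≠ 0) :
    ∑ v, (F.filter fun e => v ∈ e).card = 2 * F.card := by
  classical
  have h1 : ∀ v, (F.filter fun e => v ∈ e).card = ∑ e ∈ F, if v ∈ e then 1 else 0 := by
    intro v
    rw [Finset.card_filter]
  rw [Finset.sum_congr rfl fun v _ => h1 v, Finset.sum_comm]
  have h2 : ∀ e ∈ F, ∑ v : V, (if v ∈ e then 1 else 0) = 2 := by
    intro e he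
    rw [← Finset.card_filter]
    exact orient_ends f hd e (hF e he)
  rw [Finset.sum_congr rfl h2, Finset.sum_const, smul_eq_mul, mul_comm]

theorem orient_total (f : Sym2 V → ZMod 2) (hd : ∀ v, f s(v, v) = 0) :
    ∑ v, dg f v = 2 * (univ.filter fun e : Sym2 V => f e ≠ 0).card := by
  classical
  rw [← orient_handshake f hd _ fun e he => (Finset.mem_filter.1 he).2]
  apply Finset.sum_congr rfl
  intro v _
  rw [← orient_card_at f v, Finset.filter_filter]

/-- The chosen ends. -/
theorem orient_choice (f : Sym2 V → ZMod 2) (hd : ∀ v, f s(v, v) = 0) (hb : ∀ v, bd f v = 0) :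
    ∃ c : Sym2 V → V, (∀ e, c e ∈ e) ∧
      ∀ v, 2 * (univ.filter fun e : Sym2 V => f e ≠ 0 ∧ c e = v).card = dg f v := by
  classical
  have hall : ∀ s : Finset {e : Sym2 V // f e ≠ 0}, s.card ≤
      (s.biUnion fun e => univ.filter fun x : (Σ v, Fin (dg f v / 2)) => x.1 ∈ e.1).card := by
    intro s
    obtain ⟨F, hFdef⟩ : ∃ F : Finset (Sym2 V), F = s.map (Function.Embedding.subtype _) :=
      ⟨_, rfl⟩
    have hFc : F.card = s.card := by rw [hFdef, Finset.card_map]
    have hF : ∀ e ∈ F, f e ≠ 0 := by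
      intro e he
      rw [hFdef, Finset.mem_map] at he
      obtain ⟨x, -, rfl⟩ := he
      exact x.2
    have h1 := orient_handshake f hd F hF
    obtain ⟨W, hW⟩ : ∃ W : Finset V, W = univ.filter fun v => ∃ e ∈ F, v ∈ e := ⟨_, rfl⟩
    have h2 : (s.biUnion fun e => univ.filter fun x : (Σ v, Fin (dg f v / 2)) => x.1 ∈ e.1)
        = W.sigma fun _ => univ := by
      ext x
      simp only [Finset.mem_biUnion, Finset.mem_filter, Finset.mem_univ, true_and,
        Finset.mem_sigma, and_true, hW]
      constructor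
      · rintro ⟨e, he, hx⟩
        exact ⟨e.1, by rw [hFdef]; exact Finset.mem_map_of_mem _ he, hx⟩
      · rintro ⟨e, he, hx⟩
        rw [hFdef, Finset.mem_map] at he
        obtain ⟨y, hy, rfl⟩ := he
        exact ⟨y, hy, hx⟩
    have h3 : ∑ v, (F.filter fun e => v ∈ e).card ≤ ∑ v ∈ W, 2 * (dg f v / 2) := by
      have e1 : ∑ v, (F.filter fun e => v ∈ e).card = ∑ v ∈ W, (F.filter fun e => v ∈ e).card := by
        symm
        apply Finset.sum_subset (Finset.subset_univ _)
        intro v _ hv
        rw [Finset.card_eq_zero, Finset.filter_eq_empty_iff]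
        intro e he hve
        apply hv
        rw [hW, Finset.mem_filter]
        exact ⟨Finset.mem_univ _, e, he, hve⟩
      rw [e1]
      apply Finset.sum_le_sum
      intro v _
      have e2 : 2 * (dg f v / 2) = dg f v := Nat.two_mul_div_two_of_even (orient_even f v (hb v))
      rw [e2, ← orient_card_at f v]
      apply Finset.card_le_card
      intro e he
      rw [Finset.mem_filter] at he ⊢
      exact ⟨Finset.mem_univ _, hF e he.1, he.2⟩
    rw [h1, ← Finset.mul_sum] at h3
    rw [h2, Finset.card_sigma, ← hFc]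
    have h4 := Nat.le_of_mul_le_mul_left h3 (by norm_num)
    simpa using h4
  obtain ⟨g, hg, hgt⟩ := (Finset.all_card_le_biUnion_card_iff_exists_injective _).1 hall
  obtain ⟨c, hc⟩ : ∃ c : Sym2 V → V, c = fun e => if h : f e ≠ 0 then (g ⟨e, h⟩).1 else e.out.1 :=
    ⟨_, rfl⟩
  have hcm : ∀ e, c e ∈ e := by
    intro e
    rw [hc]
    by_cases h : f e ≠ 0
    · simp only [dif_pos h]
      exact (Finset.mem_filter.1 (hgt ⟨e, h⟩)).2
    · simp only [dif_neg h]
      exact Sym2.out_fst_mem e
  have hle : ∀ v, (univ.filter fun e : Sym2 V => f e ≠ 0 ∧ c e = v).card ≤ dg f v / 2 := by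
    intro v
    have h1 : (univ.filter fun x : (Σ v, Fin (dg f v / 2)) => x.1 = v).card = dg f v / 2 := by
      rw [Finset.card_filter, Fintype.sum_sigma, Finset.sum_eq_single v]
      · simp
      · intro b _ hb
        simp [hb]
      · simp
    have h2 : ∀ e ∈ (univ.filter fun e : Sym2 V => f e ≠ 0 ∧ c e = v), f e ≠ 0 :=
      fun e he => (Finset.mem_filter.1 he).2.1
    obtain ⟨Q, hQ⟩ : ∃ Q : Finset (Σ v, Fin (dg f v / 2)),
        Q = (univ.filter fun e : Sym2 V => f e ≠ 0 ∧ c e = v).attach.image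
          fun e => g ⟨e.1, h2 e.1 e.2⟩ := ⟨_, rfl⟩
    have h3 : Q.card = (univ.filter fun e : Sym2 V => f e ≠ 0 ∧ c e = v).card := by
      rw [hQ, Finset.card_image_of_injective, Finset.card_attach]
      intro x y hxy
      have h4 := hg hxy
      exact Subtype.ext (Subtype.mk.inj h4)
    rw [← h3, ← h1]
    apply Finset.card_le_card
    intro x hx
    rw [hQ, Finset.mem_image] at hx
    obtain ⟨e, -, rfl⟩ := hx
    rw [Finset.mem_filter]
    refine ⟨Finset.mem_univ _, ?_⟩
    have h5 := (Finset.mem_filter.1 e.2).2.2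
    have h6 : c e.1 = (g ⟨e.1, h2 e.1 e.2⟩).1 := by
      have h7 : ∀ (y : Sym2 V) (hy : f y ≠ 0), c y = (g ⟨y, hy⟩).1 := by
        intro y hy
        rw [hc]
        simp only [dif_pos hy]
      exact h7 _ _
    rw [← h6]
    exact h5
  refine ⟨c, hcm, fun v => ?_⟩
  have hsum : ∑ v, (univ.filter fun e : Sym2 V => f e ≠ 0 ∧ c e = v).card
      = (univ.filter fun e : Sym2 V => f e ≠ 0).card := by
    rw [Finset.card_eq_sum_card_fiberwise (f := c) (t := univ) (fun _ _ => Finset.mem_univ _)]
    apply Finset.sum_congr rfl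
    intro v _
    rw [Finset.filter_filter]
  have htot := orient_total f hd
  have heven : ∀ v, 2 * (dg f v / 2) = dg f v := fun v =>
    Nat.two_mul_div_two_of_even (orient_even f v (hb v))
  have hsum2 : ∑ v, dg f v / 2 = (univ.filter fun e : Sym2 V => f e ≠ 0).card := by
    have : 2 * ∑ v, dg f v / 2 = 2 * (univ.filter fun e : Sym2 V => f e ≠ 0).card := by
      rw [Finset.mul_sum, Finset.sum_congr rfl fun v _ => heven v, htot]
    omega
  have heq : ∀ v ∈ (univ : Finset V), (univ.filter fun e : Sym2 V => f e ≠ 0 ∧ c e = v).card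
      = dg f v / 2 := by
    apply (Finset.sum_eq_sum_iff_of_le fun v _ => hle v).1
    rw [hsum, hsum2]
  rw [heq v (Finset.mem_univ v), heven v]

theorem exists_orientation (f : Sym2 V → ZMod 2) (hd : ∀ v, f s(v, v) = 0)
    (hb : ∀ v, bd f v = 0) :
    ∃ A : Finset (V × V), (∀ u v, (u, v) ∈ A → (v, u) ∉ A) ∧
      (∀ u v, f s(u, v) ≠ 0 ↔ (u, v) ∈ A ∨ (v, u) ∈ A) ∧
      ∀ v, 2 * (A.filter fun e => e.1 = v).card = dg f v ∧
        2 * (A.filter fun e => e.2 = v).card = dg f v := by
  classical
  obtain ⟨c, hcm, hcc⟩ := orient_choice f hd hb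
  obtain ⟨A, hA⟩ : ∃ A : Finset (V × V),
      A = univ.filter fun x : V × V => f s(x.1, x.2) ≠ 0 ∧ c s(x.1, x.2) = x.1 := ⟨_, rfl⟩
  have hmem : ∀ u v, (u, v) ∈ A ↔ f s(u, v) ≠ 0 ∧ c s(u, v) = u := by
    intro u v
    rw [hA, Finset.mem_filter]
    simp
  have h1 : ∀ u v, (u, v) ∈ A → (v, u) ∉ A := by
    intro u v h h'
    rw [hmem] at h h'
    rw [Sym2.eq_swap] at h'
    have huv : u = v := h.2.symm.trans h'.2
    subst huv
    exact h.1 (hd u)
  have h2 : ∀ u v, f s(u, v) ≠ 0 ↔ (u, v) ∈ A ∨ (v, u) ∈ A := by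
    intro u v
    rw [hmem, hmem, Sym2.eq_swap (a := v) (b := u)]
    constructor
    · intro h
      rcases Sym2.mem_iff.1 (hcm s(u, v)) with h3 | h3
      · exact Or.inl ⟨h, h3⟩
      · exact Or.inr ⟨h, h3⟩
    · rintro (h | h)
      · exact h.1
      · exact h.1
  refine ⟨A, h1, h2, fun v => ?_⟩
  have h3 : (A.filter fun e => e.1 = v).card
      = (univ.filter fun e : Sym2 V => f e ≠ 0 ∧ c e = v).card := by
    have e1 : (univ.filter fun e : Sym2 V => f e ≠ 0 ∧ c e = v)
        = (A.filter fun e => e.1 = v).image fun x => s(x.1, x.2) := by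
      ext e
      simp only [Finset.mem_filter, Finset.mem_univ, true_and, Finset.mem_image, Prod.exists]
      constructor
      · rintro ⟨h4, h5⟩
        have h6 := hcm e
        rw [h5] at h6
        obtain ⟨w, rfl⟩ := Sym2.mem_iff_exists.1 h6
        exact ⟨v, w, ⟨(hmem v w).2 ⟨h4, h5⟩, rfl⟩, rfl⟩
      · rintro ⟨a, b, ⟨h4, h5⟩, rfl⟩
        rw [hmem] at h4
        exact ⟨h4.1, h4.2.trans h5⟩
    rw [e1, Finset.card_image_of_injOn]
    rintro ⟨a, b⟩ hx ⟨a', b'⟩ hy hxy
    have e2 : a = v := (Finset.mem_filter.1 hx).2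
    have e3 : a' = v := (Finset.mem_filter.1 hy).2
    subst e2
    subst e3
    have e4 : s(a', b) = s(a', b') := hxy
    rw [Sym2.congr_right.1 e4]
  have h4 : (A.filter fun e => e.1 = v).card + (A.filter fun e => e.2 = v).card = dg f v := by
    have e1 : (A.filter fun e => e.1 = v).card
        = (univ.filter fun w => (v, w) ∈ A).card := by
      have e2 : (A.filter fun e => e.1 = v)
          = (univ.filter fun w => (v, w) ∈ A).image fun w => (v, w) := by
        ext ⟨a, b⟩
        simp only [Finset.mem_filter, Finset.mem_univ, true_and, Finset.mem_image]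
        constructor
        · rintro ⟨h4, rfl⟩
          exact ⟨b, h4, rfl⟩
        · rintro ⟨w, h4, h5⟩
          rw [Prod.mk.injEq] at h5
          obtain ⟨rfl, rfl⟩ := h5
          exact ⟨h4, rfl⟩
      rw [e2, Finset.card_image_of_injective]
      intro w w' h
      exact (Prod.mk.injEq _ _ _ _ ▸ h).2
    have e1' : (A.filter fun e => e.2 = v).card
        = (univ.filter fun w => (w, v) ∈ A).card := by
      have e2 : (A.filter fun e => e.2 = v)
          = (univ.filter fun w => (w, v) ∈ A).image fun w => (w, v) := by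
        ext ⟨a, b⟩
        simp only [Finset.mem_filter, Finset.mem_univ, true_and, Finset.mem_image]
        constructor
        · rintro ⟨h4, rfl⟩
          exact ⟨a, h4, rfl⟩
        · rintro ⟨w, h4, h5⟩
          rw [Prod.mk.injEq] at h5
          obtain ⟨rfl, rfl⟩ := h5
          exact ⟨h4, rfl⟩
      rw [e2, Finset.card_image_of_injective]
      intro w w' h
      exact (Prod.mk.injEq _ _ _ _ ▸ h).1
    rw [e1, e1', ← Finset.card_union_of_disjoint]
    · unfold dg
      congr 1
      ext w
      simp only [Finset.mem_union, Finset.mem_filter, Finset.mem_univ, true_and]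
      exact (h2 v w).symm
    · rw [Finset.disjoint_left]
      intro w hw hw'
      rw [Finset.mem_filter] at hw hw'
      exact h1 v w hw.2 hw'.2
  have h5 := hcc v
  rw [← h3] at h5
  exact ⟨h5, by omega⟩

end Pool.Agent.H.MP_5bc4af.H5
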