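import Pool.Agent.H.MP_5bc4af_co.helper5.Rem

/-!
# MP_5bc4af : a nearly regular digraph as a union of permutations with few extra arcs
-/

open Finset

namespace Pool.Agent.H.MP_5bc4af.H5

variable {V : Type*} [Fintype V] [DecidableEq V]

theorem regularize (B : Finset (V × V)) (hloop : ∀ v, (v, v) ∉ B) (r s : ℕ)
    (hout : ∀ v, (B.filter fun e => e.1 = v).card ≤ r)
    (hin : ∀ v, (B.filter fun e => e.2 = v).card ≤ r)
    (h1 : ∀ v, (B.filter fun e => e.1 = v).card ≤ (B.filter fun e => e.2 = v).card + s)
    (h2 : ∀ v, (B.filter fun e => e.2 = v).card ≤ (B.filter fun e => e.1 = v).card + s) :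
    ∃ (σ : Fin r → Equiv.Perm V) (Re : Fin r → Finset V),
      (∀ j, ∀ v ∈ Re j, (v, σ j v) ∈ B) ∧
      (∀ e ∈ B, ∃! j, e.1 ∈ Re j ∧ σ j e.1 = e.2) ∧
      (∀ v, (univ.filter fun j => σ j v ≠ v ∧ v ∉ Re j).card ≤ s) ∧
      (∀ v, (univ.filter fun j => σ j v ≠ v ∧ (σ j).symm v ∉ Re j).card ≤ s) := by
  classical
  set o : V → ℕ := fun v => (B.filter fun e => e.1 = v).card with ho
  set i : V → ℕ := fun v => (B.filter fun e => e.2 = v).card with hi
  have hoi : ∑ v, o v = ∑ v, i v := by
    have e1 : ∑ v, o v = B.card := by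
      rw [ho]
      exact (Finset.card_eq_sum_card_fiberwise (f := fun e : V × V => e.1) (s := B) (t := univ)
        (fun e _ => Finset.mem_coe.2 (Finset.mem_univ _))).symm
    have e2 : ∑ v, i v = B.card := by
      rw [hi]
      exact (Finset.card_eq_sum_card_fiberwise (f := fun e : V × V => e.2) (s := B) (t := univ)
        (fun e _ => Finset.mem_coe.2 (Finset.mem_univ _))).symm
    rw [e1, e2]
  have hO : ∀ v, o v ≤ r := hout
  have hI : ∀ v, i v ≤ r := hin
  have H1 : ∀ v, o v ≤ i v + s := h1
  have H2 : ∀ v, i v ≤ o v + s := h2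
  obtain ⟨F, hF1, hF2⟩ := transport (fun v => max (o v) (i v) - o v) (fun v => max (o v) (i v) - i v)
    (by
      have e1 : ∑ v, (max (o v) (i v) - o v) + ∑ v, o v = ∑ v, max (o v) (i v) := by
        rw [← Finset.sum_add_distrib]
        exact Finset.sum_congr rfl fun v _ => Nat.sub_add_cancel (le_max_left _ _)
      have e2 : ∑ v, (max (o v) (i v) - i v) + ∑ v, i v = ∑ v, max (o v) (i v) := by
        rw [← Finset.sum_add_distrib]
        exact Finset.sum_congr rfl fun v _ => Nat.sub_add_cancel (le_max_right _ _)
      omega)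
  set M : V → V → ℕ := fun u v => ((if (u, v) ∈ B then 1 else 0) +
    (if u = v then r - max (o u) (i u) else 0)) + F u v with hM
  have hmax : ∀ v, max (o v) (i v) ≤ r := fun v => max_le (hO v) (hI v)
  obtain ⟨σ, hσ⟩ := int_birkhoff r M (by
    intro u
    rw [hM]
    simp only
    rw [Finset.sum_add_distrib, Finset.sum_add_distrib, card_out_Rem, Finset.sum_ite_eq, hF1]
    simp only [Finset.mem_univ, if_true]
    have e1 := hmax u
    have e2 : o u ≤ max (o u) (i u) := le_max_left _ _
    have e3 : (B.filter fun e => e.1 = u).card = o u := rfl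
    omega) (by
    intro v
    rw [hM]
    simp only
    rw [Finset.sum_add_distrib, Finset.sum_add_distrib, card_in_Rem, Finset.sum_ite_eq', hF2]
    simp only [Finset.mem_univ, if_true]
    have e1 := hmax v
    have e2 : i v ≤ max (o v) (i v) := le_max_right _ _
    have e3 : (B.filter fun e => e.2 = v).card = i v := rfl
    omega)
  have hex : ∀ e : V × V, e ∈ B → ∃ j : Fin r, σ j e.1 = e.2 := by
    rintro ⟨u, v⟩ he
    have h3 : 0 < (univ.filter fun j => σ j u = v).card := by
      rw [← hσ u v, hM]
      simp only [he, if_true]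
      omega
    obtain ⟨j, hj⟩ := Finset.card_pos.1 h3
    exact ⟨j, (Finset.mem_filter.1 hj).2⟩
  choose jj hjj using hex
  set Re : Fin r → Finset V := fun j => univ.filter fun v => ∃ h : (v, σ j v) ∈ B, jj _ h = j
    with hRe
  have hmem : ∀ j v, v ∈ Re j ↔ ∃ h : (v, σ j v) ∈ B, jj _ h = j := by
    intro j v
    rw [hRe]
    simp
  have huniq : ∀ e (he : e ∈ B) j, (e.1 ∈ Re j ∧ σ j e.1 = e.2) ↔ j = jj e he := by
    rintro ⟨u, v⟩ he j
    constructor
    · rintro ⟨h3, h4⟩
      rw [hmem] at h3
      obtain ⟨h5, h6⟩ := h3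
      simp only at h4 h5 h6
      subst h4
      exact h6.symm
    · intro h3
      have h4 := hjj _ he
      rw [← h3] at h4
      simp only at h4
      refine ⟨?_, h4⟩
      rw [hmem]
      subst h4
      exact ⟨he, h3.symm⟩
  have hfix : ∀ v, r - max (o v) (i v) ≤ (univ.filter fun j => σ j v = v).card := by
    intro v
    rw [← hσ v v, hM]
    simp only [if_true]
    omega
  have hnl : ∀ j v, v ∈ Re j → σ j v ≠ v := by
    intro j v hv hc
    rw [hmem] at hv
    obtain ⟨h3, -⟩ := hv
    rw [hc] at h3
    exact hloop v h3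
  have hcard : ∀ v, (univ.filter fun j : Fin r => σ j v = v).card +
      (univ.filter fun j : Fin r => σ j v ≠ v).card = r := by
    intro v
    rw [Finset.card_filter_add_card_filter_not]
    simp
  have hco : ∀ v, (univ.filter fun j => v ∈ Re j).card = o v := by
    intro v
    symm
    refine Finset.card_bij (fun e he => jj e (Finset.mem_filter.1 he).1) ?_ ?_ ?_
    · intro e he
      obtain ⟨he1, he2⟩ := Finset.mem_filter.1 he
      have := ((huniq e he1 _).2 rfl).1
      rw [Finset.mem_filter]
      rw [he2] at this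
      exact ⟨mem_univ _, this⟩
    · intro e he e' he' h
      obtain ⟨he1, he2⟩ := Finset.mem_filter.1 he
      obtain ⟨he1', he2'⟩ := Finset.mem_filter.1 he'
      have h3 := ((huniq e he1 _).2 rfl).2
      have h4 := ((huniq e' he1' _).2 rfl).2
      rw [← h] at h4
      rw [he2] at h3
      rw [he2'] at h4
      exact Prod.ext (he2.trans he2'.symm) (h3.symm.trans h4)
    · intro j hj
      rw [Finset.mem_filter] at hj
      obtain ⟨h3, h4⟩ := (hmem j v).1 hj.2
      exact ⟨(v, σ j v), by rw [Finset.mem_filter]; exact ⟨h3, rfl⟩, h4⟩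
  have hci : ∀ v, (univ.filter fun j => (σ j).symm v ∈ Re j).card = i v := by
    intro v
    symm
    refine Finset.card_bij (fun e he => jj e (Finset.mem_filter.1 he).1) ?_ ?_ ?_
    · intro e he
      obtain ⟨he1, he2⟩ := Finset.mem_filter.1 he
      obtain ⟨h3, h4⟩ := (huniq e he1 _).2 rfl
      rw [Finset.mem_filter]
      refine ⟨mem_univ _, ?_⟩
      have h6 : (σ (jj e he1)).symm v = e.1 := by
        rw [Equiv.symm_apply_eq, h4]
        exact he2.symm
      rw [h6]
      exact h3
    · intro e he e' he' h
      obtain ⟨he1, he2⟩ := Finset.mem_filter.1 he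
      obtain ⟨he1', he2'⟩ := Finset.mem_filter.1 he'
      have h3 := ((huniq e he1 _).2 rfl).2
      have h4 := ((huniq e' he1' _).2 rfl).2
      rw [← h] at h4
      rw [he2] at h3
      rw [he2'] at h4
      exact Prod.ext ((σ _).injective (h3.trans h4.symm)) (he2.trans he2'.symm)
    · intro j hj
      rw [Finset.mem_filter] at hj
      obtain ⟨h3, h4⟩ := (hmem j _).1 hj.2
      refine ⟨((σ j).symm v, σ j ((σ j).symm v)), ?_, h4⟩
      rw [Finset.mem_filter]
      exact ⟨h3, by simp⟩
  refine ⟨σ, Re, ?_, ?_, ?_, ?_⟩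
  · intro j v hv
    exact ((hmem j v).1 hv).1
  · intro e he
    exact ⟨jj e he, (huniq e he _).2 rfl, fun j hj => (huniq e he j).1 hj⟩
  · intro v
    have e1 : (univ.filter fun j => σ j v ≠ v ∧ v ∉ Re j).card +
        (univ.filter fun j => v ∈ Re j).card = (univ.filter fun j => σ j v ≠ v).card := by
      rw [← Finset.card_union_of_disjoint]
      · congr 1
        ext j
        simp only [Finset.mem_union, Finset.mem_filter, Finset.mem_univ, true_and]
        constructor
        · rintro (h | h)
          · exact h.1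
          · exact hnl j v h
        · intro h
          by_cases h3 : v ∈ Re j
          · exact Or.inr h3
          · exact Or.inl ⟨h, h3⟩
      · rw [Finset.disjoint_left]
        intro j h3 h4
        rw [Finset.mem_filter] at h3 h4
        exact h3.2.2 h4.2
    have e2 := hco v
    have e3 := hfix v
    have e4 := hcard v
    have e5 := H1 v
    have e6 := H2 v
    have e7 : max (o v) (i v) ≤ o v + s := max_le (by omega) e6
    have e8 := hmax v
    omega
  · intro v
    have e1 : (univ.filter fun j => σ j v ≠ v ∧ (σ j).symm v ∉ Re j).card +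
        (univ.filter fun j => (σ j).symm v ∈ Re j).card = (univ.filter fun j => σ j v ≠ v).card := by
      rw [← Finset.card_union_of_disjoint]
      · congr 1
        ext j
        simp only [Finset.mem_union, Finset.mem_filter, Finset.mem_univ, true_and]
        constructor
        · rintro (h | h)
          · exact h.1
          · intro hc
            apply hnl j _ h
            rw [Equiv.apply_symm_apply, Equiv.eq_symm_apply]
            exact hc
        · intro h
          by_cases h3 : (σ j).symm v ∈ Re j
          · exact Or.inr h3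
          · exact Or.inl ⟨h, h3⟩
      · rw [Finset.disjoint_left]
        intro j h3 h4
        rw [Finset.mem_filter] at h3 h4
        exact h3.2.2 h4.2
    have e2 := hci v
    have e3 := hfix v
    have e4 := hcard v
    have e5 := H1 v
    have e6 := H2 v
    have e7 : max (o v) (i v) ≤ i v + s := max_le e5 (by omega)
    have e8 := hmax v
    omega

end Pool.Agent.H.MP_5bc4af.H5
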