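import Pool.Agent.H.MP_5bc4af_co.helper5.Merge
import Pool.Agent.H.MP_5bc4af_co.helper5.Birk
import Pool.Agent.H.MP_5bc4af_co.helper5.Orient

/-!
# MP_5bc4af : an even graph of maximum degree at most `2r` is a sum of at most `2r` cycles
-/

open Finset

namespace Pool.Agent.H.MP_5bc4af.H5

variable {V : Type*} [Fintype V] [DecidableEq V]

omit [Fintype V] in
theorem ev_apply (u v : V) (z : Sym2 V) :
    ev u v z = if u ≠ v ∧ z = s(u, v) then 1 else 0 := by
  unfold ev
  by_cases h : u = v
  · simp [h]
  · by_cases h2 : z = s(u, v)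
    · simp [h, h2]
    · simp [h, h2, Pi.single_apply]

/-- the vector of the graph is the sum of the vectors of the arcs of an orientation -/
theorem vec_orient (f : Sym2 V → ZMod 2) (A : Finset (V × V))
    (h1 : ∀ u v, (u, v) ∈ A → (v, u) ∉ A)
    (h2 : ∀ u v, f s(u, v) ≠ 0 ↔ (u, v) ∈ A ∨ (v, u) ∈ A) :
    f = ∑ e ∈ A, ev e.1 e.2 := by
  funext z
  rw [Finset.sum_apply]
  induction z using Sym2.ind with
  | _ u v =>
    have hA : ∀ x y : V, (x, y) ∈ A → x ≠ y := by
      intro x y hxy hc
      subst hc
      exact h1 x x hxy hxy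
    have key : ∀ x y : V, (x, y) ∈ A → (∑ e ∈ A, ev e.1 e.2 s(x, y)) = 1 := by
      intro x y hxy
      rw [Finset.sum_eq_single (x, y)]
      · rw [ev_apply, if_pos]
        exact ⟨hA x y hxy, rfl⟩
      · rintro ⟨a, b⟩ hab hne
        rw [ev_apply, if_neg]
        rintro ⟨-, h3⟩
        rw [Sym2.eq_iff] at h3
        rcases h3 with ⟨h4, h5⟩ | ⟨h4, h5⟩
        · exact hne (by rw [h4, h5])
        · simp only at h4 h5
          rw [h4, h5] at hxy
          exact h1 _ _ hxy hab
      · intro h; exact absurd hxy h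
    by_cases hf : f s(u, v) = 0
    · rw [hf]
      symm
      apply Finset.sum_eq_zero
      rintro ⟨a, b⟩ hab
      rw [ev_apply, if_neg]
      rintro ⟨-, h3⟩
      have h4 : ¬ ((u, v) ∈ A ∨ (v, u) ∈ A) := by
        rw [← h2]
        simpa using hf
      rw [Sym2.eq_iff] at h3
      simp only at h3
      rcases h3 with ⟨h5, h6⟩ | ⟨h5, h6⟩
      · rw [h5, h6] at h4
        exact h4 (Or.inl hab)
      · rw [h5, h6] at h4
        exact h4 (Or.inr hab)
    · have hf1 : f s(u, v) = 1 := by
        have h5 : ∀ a : ZMod 2, a ≠ 0 → a = 1 := by decide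
        exact h5 _ hf
      rw [hf1]
      rcases (h2 u v).1 hf with h | h
      · exact (key u v h).symm
      · rw [Sym2.eq_swap]
        exact (key v u h).symm

/-- the sum over the permutations of an integer Birkhoff decomposition -/
theorem sum_birk {r : ℕ} {M : V → V → ℕ} {σ : Fin r → Equiv.Perm V}
    (hσ : ∀ u v, M u v = (univ.filter fun j => σ j u = v).card) :
    ∑ j, chi (σ j) = ∑ u, ∑ v, M u v • ev u v := by
  unfold chi
  rw [Finset.sum_comm]
  apply Finset.sum_congr rfl
  intro u _
  have h1 : ∀ v, M u v • ev u v = ∑ j, if σ j u = v then ev u v else 0 := by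
    intro v
    rw [hσ, ← Finset.sum_filter, Finset.sum_const]
  rw [Finset.sum_congr rfl fun v _ => h1 v, Finset.sum_comm]
  apply Finset.sum_congr rfl
  intro j _
  rw [Finset.sum_ite_eq]
  simp

omit [Fintype V] in
theorem card_out_Rem [Fintype V] (A : Finset (V × V)) (u : V) :
    ∑ v, (if (u, v) ∈ A then 1 else 0) = (A.filter fun e => e.1 = u).card := by
  rw [← Finset.card_filter]
  refine Finset.card_bij (fun v _ => (u, v)) ?_ ?_ ?_
  · intro v hv
    rw [Finset.mem_filter] at hv ⊢
    exact ⟨hv.2, rfl⟩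
  · intro v _ w _ h
    exact (Prod.mk.inj h).2
  · rintro ⟨a, b⟩ hab
    rw [Finset.mem_filter] at hab
    obtain ⟨h1, h2⟩ := hab
    simp only at h2
    subst h2
    exact ⟨b, by rw [Finset.mem_filter]; exact ⟨Finset.mem_univ _, h1⟩, rfl⟩

omit [Fintype V] in
theorem card_in_Rem [Fintype V] (A : Finset (V × V)) (v : V) :
    ∑ u, (if (u, v) ∈ A then 1 else 0) = (A.filter fun e => e.2 = v).card := by
  rw [← Finset.card_filter]
  refine Finset.card_bij (fun u _ => (u, v)) ?_ ?_ ?_
  · intro u hu
    rw [Finset.mem_filter] at hu ⊢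
    exact ⟨hu.2, rfl⟩
  · intro u _ w _ h
    exact (Prod.mk.inj h).1
  · rintro ⟨a, b⟩ hab
    rw [Finset.mem_filter] at hab
    obtain ⟨h1, h2⟩ := hab
    simp only at h2
    subst h2
    exact ⟨a, by rw [Finset.mem_filter]; exact ⟨Finset.mem_univ _, h1⟩, rfl⟩

/-- An even graph of maximum degree at most `2r` is a sum of at most `2r` cycles. -/
theorem cov_rem (f : Sym2 V → ZMod 2) (hd : ∀ v, f s(v, v) = 0) (hb : ∀ v, bd f v = 0) (r : ℕ)
    (h : ∀ v, dg f v ≤ 2 * r) : Cov f (2 * r) := by
  obtain ⟨A, h1, h2, h3⟩ := exists_orientation f hd hb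
  have hout : ∀ v, (A.filter fun e => e.1 = v).card ≤ r := by
    intro v
    have := (h3 v).1
    have := h v
    omega
  have hio : ∀ v, (A.filter fun e => e.1 = v).card = (A.filter fun e => e.2 = v).card := by
    intro v
    have := (h3 v).1
    have := (h3 v).2
    omega
  set M : V → V → ℕ := fun u v => (if (u, v) ∈ A then 1 else 0) +
    (if u = v then r - (A.filter fun e => e.1 = u).card else 0) with hM
  obtain ⟨σ, hσ⟩ := int_birkhoff r M (by
    intro u
    rw [hM]
    simp only
    rw [Finset.sum_add_distrib, card_out_Rem, Finset.sum_ite_eq]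
    simp only [Finset.mem_univ, if_true]
    have := hout u
    omega) (by
    intro v
    rw [hM]
    simp only
    rw [Finset.sum_add_distrib, card_in_Rem, Finset.sum_ite_eq']
    simp only [Finset.mem_univ, if_true]
    have := hout v
    have := hio v
    omega)
  have key : f = ∑ j, chi (σ j) := by
    rw [sum_birk hσ, vec_orient f A h1 h2]
    have h4 : ∀ u v, M u v • ev u v = if (u, v) ∈ A then ev u v else 0 := by
      intro u v
      rw [hM]
      simp only
      rw [add_smul]
      by_cases huv : u = v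
      · subst huv
        rw [ev_self]
        simp
      · simp [huv]
    rw [Finset.sum_congr rfl fun u _ => Finset.sum_congr rfl fun v _ => h4 u v,
      ← Finset.sum_product', Finset.univ_product_univ, ← Finset.sum_filter]
    apply Finset.sum_congr
    · ext e
      simp
    · intro e _
      rfl
  rw [key]
  have h5 := Cov.sum Finset.univ (fun j => chi (σ j)) (fun _ => 2) fun j _ => cov_perm (σ j)
  refine h5.mono ?_
  simp
  omega

end Pool.Agent.H.MP_5bc4af.H5
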